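import Pool.Agent.Q207.Ear.Comb

/-!
# The complex built from a base sphere and a ball
-/

open Finset

namespace Q207.Ear

abbrev X := Fin 13

/-- the facets containing `τ` -/
def star (Tf : Finset (Finset X)) (τ : Finset X) : Finset (Finset X) := Tf.filter fun F => τ ⊆ F

/-- The combinatorial hypotheses on the base sphere `Tf` (a suspension of `Sf`) and the ball
`Bf` with boundary `Sf`; `E` lists the obstructing faces. -/
structure Base (Sf Tf Bf : Finset (Finset X)) (t : ℕ) (E : Fin t → Finset X) : Prop where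
  cardT : ∀ F ∈ Tf, F.card = 4
  cardB : ∀ F ∈ Bf, F.card = 4
  cardS : ∀ F ∈ Sf, F.card = 3
  neB : Bf.Nonempty
  neS : Sf.Nonempty
  tpos : 0 < t
  starNe : ∀ F ∈ Sf, ∃ G ∈ Tf, F ⊆ G
  closed : ∀ F ∈ Tf, ∀ v ∈ F, (Tf.filter fun F' => F.erase v ⊆ F').card = 2
  TB : ∀ F ∈ Bf, ∀ G ∈ Tf, ∃ H ∈ Sf, F ∩ G ⊆ H
  bdB : ridges Bf = Sf
  Emem : ∀ k, ∃ F ∈ Sf, E k ⊆ F
  bad : ∀ G ∈ Bf, ∃ k, E k ⊆ G ∧ ∀ v ∈ G, E k ⊆ G.erase v → G.erase v ∉ Sf

/-- being a face of the complex with facets `G` -/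
def InC (G : Finset (Finset X)) (s : Finset X) : Prop := ∃ F ∈ G, s ⊆ F

variable {Sf Tf Bf : Finset (Finset X)} {t : ℕ} {E : Fin t → Finset X}

/-- labels -/
abbrev Lab (t : ℕ) := Fin t → Fin (t + 2)

abbrev VV (t : ℕ) := X × Lab t

def emb (l : X → Lab t) : X ↪ VV t := ⟨fun u => (u, l u), fun u v h => (Prod.mk.inj h).1⟩

theorem map_emb_eq {l l' : X → Lab t} {s s' : Finset X}
    (h : s.map (emb l) = s'.map (emb l')) : s = s' ∧ ∀ u ∈ s, l u = l' u := by
  have key : ∀ {l l' : X → Lab t} {s s' : Finset X}, s.map (emb l) = s'.map (emb l') →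
      ∀ u ∈ s, u ∈ s' ∧ l u = l' u := by
    intro l l' s s' h u hu
    have : (u, l u) ∈ s'.map (emb l') := by
      rw [← h]
      exact Finset.mem_map_of_mem (emb l) hu
    obtain ⟨u', hu', he⟩ := Finset.mem_map.1 this
    have he' : (u', l' u') = (u, l u) := he
    obtain ⟨e1, e2⟩ := Prod.mk.inj he'
    subst e1
    exact ⟨hu', e2.symm⟩
  refine ⟨?_, fun u hu => (key h u hu).2⟩
  ext u
  exact ⟨fun hu => (key h u hu).1, fun hu => (key h.symm u hu).1⟩

theorem map_emb_congr {l l' : X → Lab t} {s : Finset X} (h : ∀ u ∈ s, l u = l' u) :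
    s.map (emb l) = s.map (emb l') := by
  ext ⟨x, c⟩
  simp only [Finset.mem_map]
  constructor
  · rintro ⟨u, hu, he⟩
    refine ⟨u, hu, ?_⟩
    rw [← he]
    show (u, l' u) = (u, l u)
    rw [h u hu]
  · rintro ⟨u, hu, he⟩
    refine ⟨u, hu, ?_⟩
    rw [← he]
    show (u, l u) = (u, l' u)
    rw [h u hu]

def supp (l : X → Lab t) : Finset X := Finset.univ.filter fun u => l u ≠ 0

theorem mem_supp {l : X → Lab t} {u : X} : u ∈ supp l ↔ l u ≠ 0 := by
  simp [supp]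

theorem InC.down {G : Finset (Finset X)} {s s' : Finset X} (h : InC G s) (hs : s' ⊆ s) :
    InC G s' := by
  obtain ⟨F, hF, h⟩ := h
  exact ⟨F, hF, hs.trans h⟩

/-- index of the ears -/
abbrev J (Sf : Finset (Finset X)) (t : ℕ) := {l : X → Lab t // InC Sf (supp l)} ⊕ Lab t

/-- label of the vertices of the ball number `b` -/
def lab (E : Fin t → Finset X) (b : Lab t) : X → Lab t := fun u k => if u ∈ E k then 0 else b k

/-- the ears -/
def ear (Sf Tf Bf : Finset (Finset X)) (E : Fin t → Finset X) : J Sf t → Cpx (VV t)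
  | Sum.inl l => (gen (star Tf (supp l.1) : Set (Finset X))).map (emb l.1)
  | Sum.inr b => (gen (Bf : Set (Finset X))).map (emb (lab E b))

def rank (Sf : Finset (Finset X)) : J Sf t → ℕ
  | Sum.inl l => (supp l.1).card
  | Sum.inr _ => 14

theorem mem_ear_inl {l : {l : X → Lab t // InC Sf (supp l)}} {s : Finset (VV t)} :
    s ∈ (ear Sf Tf Bf E (Sum.inl l)).faces ↔
      ∃ s0, InC (star Tf (supp l.1)) s0 ∧ s0.map (emb l.1) = s := Iff.rfl

theorem mem_ear_inr {b : Lab t} {s : Finset (VV t)} :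
    s ∈ (ear Sf Tf Bf E (Sum.inr b)).faces ↔
      ∃ s0, InC Bf s0 ∧ s0.map (emb (lab E b)) = s := Iff.rfl

theorem mem_star {τ F : Finset X} : F ∈ star Tf τ ↔ F ∈ Tf ∧ τ ⊆ F := by
  simp [star]

section
variable (hB : Base Sf Tf Bf t E)
include hB

theorem interior_private {b b' : Lab t} {s : Finset X} (hs : ¬ InC Sf s)
    (h : ∀ u ∈ s, lab E b u = lab E b' u) : b = b' := by
  funext k
  obtain ⟨F, hF, hEF⟩ := hB.Emem k
  have : ¬ s ⊆ E k := fun h' => hs ⟨F, hF, h'.trans hEF⟩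
  obtain ⟨u, hu, huE⟩ := Finset.not_subset.1 this
  have := congrFun (h u hu) k
  simpa [lab, huE] using this

theorem inC_TB {s : Finset X} (h1 : InC Bf s) (h2 : InC Tf s) : InC Sf s := by
  obtain ⟨F, hF, hs⟩ := h1
  obtain ⟨G, hG, hs'⟩ := h2
  obtain ⟨H, hH, h⟩ := hB.TB F hF G hG
  exact ⟨H, hH, (Finset.subset_inter hs hs').trans h⟩

theorem bd_ball {b : Lab t} (s : Finset (VV t)) :
    s ∈ (ear Sf Tf Bf E (Sum.inr b)).boundary 4 ↔
      ∃ s0, InC Sf s0 ∧ s0.map (emb (lab E b)) = s := by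
  show s ∈ ((gen (Bf : Set (Finset X))).map (emb (lab E b))).boundary 4 ↔ _
  rw [Cpx.boundary_map]
  constructor
  · rintro ⟨s0, h, rfl⟩
    rw [boundary_gen hB.cardB, hB.bdB] at h
    exact ⟨s0, h, rfl⟩
  · rintro ⟨s0, h, rfl⟩
    refine ⟨s0, ?_, rfl⟩
    rw [boundary_gen hB.cardB, hB.bdB]
    exact h

theorem starBd1 {τ r : Finset X} (hr : r ∈ ridges (star Tf τ)) : ¬ τ ⊆ r := by
  intro hτ
  rw [ridges, Finset.mem_filter, Finset.mem_biUnion] at hr
  obtain ⟨⟨F, hF, hrF⟩, hc⟩ := hr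
  obtain ⟨v, hv, rfl⟩ := Finset.mem_image.1 hrF
  have h2 := hB.closed F (mem_star.1 hF).1 v hv
  have h3 : (star Tf τ).filter (fun F' => F.erase v ⊆ F') =
      Tf.filter fun F' => F.erase v ⊆ F' := by
    ext F'
    rw [Finset.mem_filter, Finset.mem_filter, mem_star]
    exact ⟨fun h => ⟨h.1.1, h.2⟩, fun h => ⟨⟨h.1, hτ.trans h.2⟩, h.2⟩⟩
  rw [h3, h2] at hc
  omega

theorem starBd2 {τ F' : Finset X} (hF' : F' ∈ star Tf τ) {v : X} (hv : v ∈ τ) :
    F'.erase v ∈ ridges (star Tf τ) := by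
  have hτF := (mem_star.1 hF').2
  rw [ridges, Finset.mem_filter, Finset.mem_biUnion]
  refine ⟨⟨F', hF', Finset.mem_image.2 ⟨v, hτF hv, rfl⟩⟩, ?_⟩
  rw [Finset.card_eq_one]
  refine ⟨F', ?_⟩
  ext H
  rw [Finset.mem_filter, Finset.mem_singleton]
  constructor
  · rintro ⟨h1, h2⟩
    rw [mem_star] at h1
    have hsub : F' ⊆ H := by
      intro w hw
      by_cases hwv : w = v
      · rw [hwv]; exact h1.2 hv
      · exact h2 (Finset.mem_erase.2 ⟨hwv, hw⟩)
    exact (Finset.eq_of_subset_of_card_le hsub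
      (by rw [hB.cardT H h1.1, hB.cardT F' (mem_star.1 hF').1])).symm
  · rintro rfl
    exact ⟨hF', Finset.erase_subset _ _⟩

theorem bd_star {l : {l : X → Lab t // InC Sf (supp l)}} (hl : supp l.1 ≠ ∅)
    (s : Finset (VV t)) :
    s ∈ (ear Sf Tf Bf E (Sum.inl l)).boundary 4 ↔
      ∃ s0, InC (star Tf (supp l.1)) s0 ∧ ¬ supp l.1 ⊆ s0 ∧ s0.map (emb l.1) = s := by
  show s ∈ ((gen (star Tf (supp l.1) : Set (Finset X))).map (emb l.1)).boundary 4 ↔ _
  rw [Cpx.boundary_map]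
  obtain ⟨S, hS, hlS⟩ := l.2
  have hcard : ∀ F ∈ star Tf (supp l.1), F.card = 4 := fun F hF => hB.cardT F (mem_star.1 hF).1
  constructor
  · rintro ⟨s0, h, rfl⟩
    rw [boundary_gen hcard] at h
    obtain ⟨r, hr, hs⟩ := h
    refine ⟨s0, ?_, ?_, rfl⟩
    · have hr' := hr
      rw [ridges, Finset.mem_filter, Finset.mem_biUnion] at hr'
      obtain ⟨⟨F, hF, hrF⟩, _⟩ := hr'
      obtain ⟨v, _, rfl⟩ := Finset.mem_image.1 hrF
      exact ⟨F, hF, hs.trans (Finset.erase_subset _ _)⟩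
    · intro h
      exact starBd1 hB hr (h.trans hs)
  · rintro ⟨s0, ⟨F, hF, hsF⟩, h, rfl⟩
    refine ⟨s0, ?_, rfl⟩
    rw [boundary_gen hcard]
    obtain ⟨v, hv, hvs⟩ := Finset.not_subset.1 h
    refine ⟨F.erase v, starBd2 hB hF hv, ?_⟩
    intro w hw
    exact Finset.mem_erase.2 ⟨fun e => hvs (e ▸ hw), hsF hw⟩

theorem inC_S_T {s : Finset X} (h : InC Sf s) : InC Tf s := by
  obtain ⟨F, hF, hs⟩ := h
  obtain ⟨G, hG, hFG⟩ := hB.starNe F hF
  exact ⟨G, hG, hs.trans hFG⟩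

/-- restriction of a labelling to a face -/
theorem restr (l : X → Lab t) (s0 : Finset X) (hT : ∃ F ∈ Tf, s0 ⊆ F ∧ (supp l ∩ s0 ⊆ F))
    (hS : InC Sf (supp l ∩ s0)) :
    ∃ l' : {l : X → Lab t // InC Sf (supp l)}, supp l'.1 = supp l ∩ s0 ∧
      s0.map (emb l) ∈ (ear Sf Tf Bf E (Sum.inl l')).faces := by
  have hsupp : supp (fun u => if u ∈ s0 then l u else 0) = supp l ∩ s0 := by
    ext u
    rw [mem_supp, Finset.mem_inter, mem_supp]
    by_cases h : u ∈ s0
    · simp [h]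
    · simp [h]
  refine ⟨⟨fun u => if u ∈ s0 then l u else 0, by rw [hsupp]; exact hS⟩, hsupp, ?_⟩
  rw [mem_ear_inl]
  obtain ⟨F, hF, h1, h2⟩ := hT
  refine ⟨s0, ⟨F, ?_, h1⟩, ?_⟩
  · rw [mem_star]
    refine ⟨hF, ?_⟩
    show supp (fun u => if u ∈ s0 then l u else 0) ⊆ F
    rw [hsupp]; exact h2
  · apply map_emb_congr
    intro u hu
    simp [hu]

/-- part (a) of condition 2 -/
theorem cond_a (y : J Sf t) (hy : rank Sf y ≠ 0) (s : Finset (VV t))
    (hs : s ∈ (ear Sf Tf Bf E y).faces) (y' : J Sf t) (hne : y' ≠ y)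
    (hr : rank Sf y' ≤ rank Sf y) (hs' : s ∈ (ear Sf Tf Bf E y').faces) :
    s ∈ (ear Sf Tf Bf E y).boundary 4 := by
  rcases y with l | b
  · have hl : supp l.1 ≠ ∅ := by
      intro h; apply hy; show (supp l.1).card = 0; rw [h]; rfl
    rw [bd_star hB hl]
    obtain ⟨s0, h0, rfl⟩ := mem_ear_inl.1 hs
    refine ⟨s0, h0, ?_, rfl⟩
    intro hsub
    rcases y' with l' | b'
    · obtain ⟨s1, h1, he⟩ := mem_ear_inl.1 hs'
      obtain ⟨e1, e2⟩ := map_emb_eq he
      subst e1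
      have hsub' : supp l.1 ⊆ supp l'.1 := by
        intro u hu
        rw [mem_supp, e2 u (hsub hu)]
        exact mem_supp.1 hu
      have heq : supp l.1 = supp l'.1 := Finset.eq_of_subset_of_card_le hsub' hr
      apply hne
      congr 1
      apply Subtype.ext
      funext u
      by_cases hu : u ∈ supp l.1
      · exact e2 u (hsub hu)
      · have h1 : l.1 u = 0 := by
          by_contra h; exact hu (mem_supp.2 h)
        have h2 : l'.1 u = 0 := by
          by_contra h; rw [heq] at hu; exact hu (mem_supp.2 h)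
        rw [h1, h2]
    · have h1 : (14 : ℕ) ≤ (supp l.1).card := hr
      have h2 : (supp l.1).card ≤ 13 := by
        have := Finset.card_le_univ (supp l.1)
        simpa using this
      omega
  · rw [bd_ball hB]
    obtain ⟨s0, h0, rfl⟩ := mem_ear_inr.1 hs
    refine ⟨s0, ?_, rfl⟩
    rcases y' with l' | b'
    · obtain ⟨s1, ⟨F, hF, h1⟩, he⟩ := mem_ear_inl.1 hs'
      obtain ⟨e1, e2⟩ := map_emb_eq he
      subst e1
      exact inC_TB hB h0 ⟨F, (mem_star.1 hF).1, h1⟩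
    · obtain ⟨s1, h1, he⟩ := mem_ear_inr.1 hs'
      obtain ⟨e1, e2⟩ := map_emb_eq he
      subst e1
      by_contra hcon
      apply hne
      rw [interior_private hB hcon e2]

/-- part (b) of condition 2 -/
theorem cond_b (y : J Sf t) (hy : rank Sf y ≠ 0) (s : Finset (VV t))
    (hs : s ∈ (ear Sf Tf Bf E y).boundary 4) :
    s ∈ (ear Sf Tf Bf E y).faces ∧ ∃ y', rank Sf y' < rank Sf y ∧
      s ∈ (ear Sf Tf Bf E y').faces := by
  refine ⟨?_, ?_⟩
  · obtain ⟨r, hr, hsr, _⟩ := hs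
    exact (ear Sf Tf Bf E y).down r hr s hsr
  · rcases y with l | b
    · have hl : supp l.1 ≠ ∅ := by
        intro h; apply hy; show (supp l.1).card = 0; rw [h]; rfl
      rw [bd_star hB hl] at hs
      obtain ⟨s0, ⟨F, hF, hsF⟩, hns, rfl⟩ := hs
      obtain ⟨l', hl', hmem⟩ := restr hB l.1 s0
        ⟨F, (mem_star.1 hF).1, hsF, Finset.inter_subset_right.trans hsF⟩
        (l.2.down Finset.inter_subset_left)
      refine ⟨Sum.inl l', ?_, hmem⟩
      show (supp l'.1).card < (supp l.1).card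
      rw [hl']
      apply Finset.card_lt_card
      refine ⟨Finset.inter_subset_left, fun h => hns fun u hu => ?_⟩
      exact (Finset.mem_inter.1 (h hu)).2
    · rw [bd_ball hB] at hs
      obtain ⟨s0, hs0, rfl⟩ := hs
      obtain ⟨F, hF, hsF⟩ := inC_S_T hB hs0
      obtain ⟨l', hl', hmem⟩ := restr hB (lab E b) s0
        ⟨F, hF, hsF, Finset.inter_subset_right.trans hsF⟩
        (hs0.down Finset.inter_subset_right)
      refine ⟨Sum.inl l', ?_, hmem⟩
      show (supp l'.1).card < 14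
      have := Finset.card_le_univ (supp l'.1)
      have h13 : Fintype.card X = 13 := by simp
      omega

end

end Q207.Ear
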