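import Pool.Agent.Q207.Ear.Defs

/-!
# Images of complexes, boundaries, purity
-/

open Finset

namespace Q207.Ear

variable {W V : Type}

/-- The image of a complex under an injective map of vertices. -/
def Cpx.map (K : Cpx W) (f : W ↪ V) : Cpx V where
  faces := {s | ∃ t ∈ K.faces, t.map f = s}
  down := by
    rintro s ⟨t, ht, rfl⟩ u hu
    obtain ⟨v, hv, rfl⟩ := Finset.subset_map_iff.1 hu
    exact ⟨v, K.down t ht v hv, rfl⟩

theorem Cpx.mem_map {K : Cpx W} {f : W ↪ V} {s : Finset V} :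
    s ∈ (K.map f).faces ↔ ∃ t ∈ K.faces, t.map f = s := Iff.rfl

theorem Cpx.map_mem_map {K : Cpx W} {f : W ↪ V} {t : Finset W} :
    t.map f ∈ (K.map f).faces ↔ t ∈ K.faces := by
  constructor
  · rintro ⟨u, hu, h⟩
    rw [Finset.map_inj] at h
    exact h ▸ hu
  · intro h; exact ⟨t, h, rfl⟩

theorem Cpx.facet_map {K : Cpx W} {f : W ↪ V} {F : Finset V} (h : (K.map f).IsFacet F) :
    ∃ t, K.IsFacet t ∧ t.map f = F := by
  obtain ⟨⟨t, ht, rfl⟩, hmax⟩ := h
  refine ⟨t, ⟨ht, fun G hG htG => ?_⟩, rfl⟩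
  have := hmax (G.map f) ⟨G, hG, rfl⟩ (Finset.map_subset_map.2 htG)
  exact (Finset.map_inj.1 this)

theorem Cpx.pure_map {K : Cpx W} {f : W ↪ V} {d : ℕ} (h : K.Pure d) : (K.map f).Pure d := by
  refine ⟨?_, ?_⟩
  · obtain ⟨s, hs⟩ := h.1
    exact ⟨s.map f, s, hs, rfl⟩
  · intro F hF
    obtain ⟨t, ht, rfl⟩ := Cpx.facet_map hF
    rw [Finset.card_map]
    exact h.2 t ht

theorem Cpx.boundary_map {K : Cpx W} {f : W ↪ V} {d : ℕ} :
    (K.map f).boundary d = {s | ∃ t ∈ K.boundary d, t.map f = s} := by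
  ext s
  constructor
  · rintro ⟨r, ⟨r0, hr0, rfl⟩, hs, hc, F, ⟨⟨F0, hF0, rfl⟩, hFc, hrF⟩, hu⟩
    obtain ⟨s0, hs0, rfl⟩ := Finset.subset_map_iff.1 hs
    refine ⟨s0, ⟨r0, hr0, hs0, by rwa [Finset.card_map] at hc, F0, ⟨hF0, by
      rwa [Finset.card_map] at hFc, Finset.map_subset_map.1 hrF⟩, ?_⟩, rfl⟩
    rintro G ⟨hG, hGc, hrG⟩
    have := hu (G.map f) ⟨⟨G, hG, rfl⟩, by rwa [Finset.card_map], Finset.map_subset_map.2 hrG⟩
    exact Finset.map_inj.1 this
  · rintro ⟨s0, ⟨r, hr, hs, hc, F, ⟨hF, hFc, hrF⟩, hu⟩, rfl⟩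
    refine ⟨r.map f, ⟨r, hr, rfl⟩, Finset.map_subset_map.2 hs, by rwa [Finset.card_map],
      F.map f, ⟨⟨F, hF, rfl⟩, by rwa [Finset.card_map], Finset.map_subset_map.2 hrF⟩, ?_⟩
    rintro G ⟨⟨G0, hG0, rfl⟩, hGc, hrG⟩
    have := hu G0 ⟨hG0, by rwa [Finset.card_map] at hGc, Finset.map_subset_map.1 hrG⟩
    rw [this]

/-- Relabeling the vertices does not change the realization. -/
noncomputable def Cpx.realMap (K : Cpx W) (f : W ↪ V) : K.real ≃ₜ (K.map f).real where
  toFun x := ⟨Function.extend f x.1 0, by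
    obtain ⟨h0, s, hs, h1, h2⟩ := x.2
    refine ⟨?_, s.map f, ⟨s, hs, rfl⟩, ?_, ?_⟩
    · intro v
      by_cases hv : ∃ w, f w = v
      · obtain ⟨w, rfl⟩ := hv
        rw [f.injective.extend_apply]; exact h0 w
      · rw [Function.extend_apply' _ _ _ hv]; exact le_refl _
    · intro v hv
      by_cases hv' : ∃ w, f w = v
      · obtain ⟨w, rfl⟩ := hv'
        rw [f.injective.extend_apply]
        exact h1 w fun h => hv (Finset.mem_map_of_mem f h)
      · rw [Function.extend_apply' _ _ _ hv']; rfl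
    · rw [Finset.sum_map, ← h2]
      exact Finset.sum_congr rfl fun w _ => by rw [f.injective.extend_apply]⟩
  invFun y := ⟨fun w => y.1 (f w), by
    obtain ⟨h0, s, ⟨t, ht, rfl⟩, h1, h2⟩ := y.2
    refine ⟨fun w => h0 _, t, ht, fun w hw => h1 _ fun h => hw ?_, ?_⟩
    · rwa [Finset.mem_map' f] at h
    · rw [Finset.sum_map] at h2; exact h2⟩
  left_inv x := by
    apply Subtype.ext
    funext w
    exact f.injective.extend_apply _ _ _
  right_inv y := by
    apply Subtype.ext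
    funext v
    obtain ⟨h0, s, ⟨t, ht, rfl⟩, h1, h2⟩ := y.2
    by_cases hv : ∃ w, f w = v
    · obtain ⟨w, rfl⟩ := hv
      exact f.injective.extend_apply _ _ _
    · show Function.extend f (fun w => y.1 (f w)) 0 v = y.1 v
      rw [Function.extend_apply' _ _ _ hv, h1 v]
      · rfl
      · intro h
        obtain ⟨w, _, hw⟩ := Finset.mem_map.1 h
        exact hv ⟨w, hw⟩
  continuous_toFun := by
    refine Continuous.subtype_mk (continuous_pi fun v => ?_) _
    by_cases hv : ∃ w, f w = v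
    · obtain ⟨w, rfl⟩ := hv
      simp only [f.injective.extend_apply]
      exact (continuous_apply w).comp continuous_subtype_val
    · simp only [Function.extend_apply' _ _ _ hv]
      exact continuous_const
  continuous_invFun := by
    refine Continuous.subtype_mk (continuous_pi fun w => ?_) _
    exact (continuous_apply (f w)).comp continuous_subtype_val

theorem Cpx.ball_map {K : Cpx W} {f : W ↪ V} {k : ℕ} (h : K.IsBall k) : (K.map f).IsBall k := by
  obtain ⟨e⟩ := h
  exact ⟨(K.realMap f).symm.trans e⟩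

theorem pure_gen {G : Finset (Finset W)} {d : ℕ} (hne : G.Nonempty)
    (hG : ∀ F ∈ G, F.card = d) : (gen (G : Set (Finset W))).Pure d := by
  refine ⟨?_, ?_⟩
  · obtain ⟨F, hF⟩ := hne
    exact ⟨F, F, hF, Finset.Subset.refl _⟩
  · rintro F ⟨⟨F', hF', h⟩, hmax⟩
    have := hmax F' ⟨F', hF', Finset.Subset.refl _⟩ h
    rw [← this]
    exact hG F' hF'

variable [DecidableEq W]

/-- the codimension-one faces in exactly one facet -/
def ridges (G : Finset (Finset W)) : Finset (Finset W) :=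
  (G.biUnion fun F => F.image fun v => F.erase v).filter fun r =>
    (G.filter fun F => r ⊆ F).card = 1

theorem boundary_gen {G : Finset (Finset W)} (hG : ∀ F ∈ G, F.card = 4) (s : Finset W) :
    s ∈ (gen (G : Set (Finset W))).boundary 4 ↔ ∃ r ∈ ridges G, s ⊆ r := by
  constructor
  · rintro ⟨r, _, hs, hc, F, ⟨⟨F', hF', hFF'⟩, hFc, hrF⟩, hu⟩
    have e : F = F' := Finset.eq_of_subset_of_card_le hFF' (by rw [hG F' hF', hFc])
    subst e
    refine ⟨r, ?_, hs⟩
    rw [ridges, Finset.mem_filter, Finset.mem_biUnion]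
    refine ⟨⟨F, hF', ?_⟩, ?_⟩
    · have hcard : (F \ r).card = 1 := by
        rw [Finset.card_sdiff_of_subset hrF, hFc]; omega
      obtain ⟨v, hv⟩ := Finset.card_eq_one.1 hcard
      have hvF : v ∈ F \ r := by rw [hv]; exact Finset.mem_singleton_self _
      rw [Finset.mem_image]
      refine ⟨v, (Finset.mem_sdiff.1 hvF).1, ?_⟩
      ext w
      rw [Finset.mem_erase]
      constructor
      · rintro ⟨h1, h2⟩
        by_contra h3
        have : w ∈ F \ r := Finset.mem_sdiff.2 ⟨h2, h3⟩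
        rw [hv, Finset.mem_singleton] at this
        exact h1 this
      · intro h
        exact ⟨fun e => (Finset.mem_sdiff.1 hvF).2 (e ▸ h), hrF h⟩
    · rw [Finset.card_eq_one]
      refine ⟨F, ?_⟩
      ext H
      rw [Finset.mem_filter, Finset.mem_singleton]
      constructor
      · rintro ⟨h1, h2⟩
        exact hu H ⟨⟨H, h1, Finset.Subset.refl _⟩, hG H h1, h2⟩
      · rintro rfl
        exact ⟨hF', hrF⟩
  · rintro ⟨r, hr, hs⟩
    rw [ridges, Finset.mem_filter, Finset.mem_biUnion] at hr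
    obtain ⟨⟨F, hF, hrF⟩, hc⟩ := hr
    obtain ⟨v, hv, rfl⟩ := Finset.mem_image.1 hrF
    refine ⟨F.erase v, ⟨F, hF, Finset.erase_subset _ _⟩, hs, ?_, ?_⟩
    · rw [Finset.card_erase_of_mem hv, hG F hF]
    · obtain ⟨F1, hF1⟩ := Finset.card_eq_one.1 hc
      have h0 : F ∈ G.filter fun F' => F.erase v ⊆ F' :=
        Finset.mem_filter.2 ⟨hF, Finset.erase_subset _ _⟩
      rw [hF1, Finset.mem_singleton] at h0
      subst h0
      refine ⟨F, ⟨⟨F, hF, Finset.Subset.refl _⟩, hG F hF, Finset.erase_subset _ _⟩, ?_⟩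
      rintro H ⟨⟨H', hH', hHH'⟩, hHc, hrH⟩
      have e : H = H' := Finset.eq_of_subset_of_card_le hHH' (by rw [hG H' hH', hHc])
      subst e
      have : H ∈ G.filter fun F' => F.erase v ⊆ F' := Finset.mem_filter.2 ⟨hH', hrH⟩
      rw [hF1, Finset.mem_singleton] at this
      exact this

/-- every face lies in a facet -/
theorem Cpx.exists_facet [Fintype V] (K : Cpx V) {s : Finset V} (hs : s ∈ K.faces) :
    ∃ F, K.IsFacet F ∧ s ⊆ F := by
  classical
  let A : Finset (Finset V) := Finset.univ.filter fun t => t ∈ K.faces ∧ s ⊆ t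
  have hA : A.Nonempty := ⟨s, by simp [A, hs]⟩
  obtain ⟨F, hF, hmax⟩ := Finset.exists_max_image A Finset.card hA
  simp only [A, Finset.mem_filter, Finset.mem_univ, true_and] at hF hmax
  refine ⟨F, ⟨hF.1, fun G hG hFG => ?_⟩, hF.2⟩
  exact (Finset.eq_of_subset_of_card_le hFG (hmax G ⟨hG, hF.2.trans hFG⟩)).symm

end Q207.Ear
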