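import Pool.Agent.Q207.Ear.DataB

set_option maxRecDepth 100000

attribute [-instance] Fintype.decidableForallFintype Fintype.decidableExistsFintype

open Finset

namespace Q207.Ear

theorem base : Base Sf Tf Bf 4 Ef where
  cardT := by decide +kernel
  cardB := by decide +kernel
  cardS := by decide +kernel
  neB := by decide +kernel
  neS := by decide +kernel
  tpos := by norm_num
  starNe := by decide +kernel
  closed := by decide +kernel
  TB := by decide +kernel
  bdB := by decide +kernel
  Emem := by decide +kernel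
  bad := by decide +kernel

def starL : List (Finset X × List (Bool × Finset X × X × Finset (Finset X))) := [
  (dc 1, [(false, dc 1536, 0, cx [1556, 1560, 1572, 1696, 1800, 1920]),
    (false, dc 48, 2, cx [1560, 1584, 1696, 1800, 1920]),
    (false, dc 272, 3, cx [1584, 1696, 1808, 1920]),
    (false, dc 288, 4, cx [1696, 1824, 1920]),
    (false, dc 416, 9, cx [1440])]),
  (dc 2, [(false, dc 392, 1, cx [904, 1416]),
    (false, dc 1536, 3, cx [1920])]),
  (dc 4, [(false, dc 48, 0, cx [564, 596, 612, 1076, 1108, 1124]),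
    (false, dc 112, 2, cx [624, 1136]),
    (false, dc 1536, 4, cx [1632])]),
  (dc 8, [(false, dc 272, 0, cx [568, 650, 680, 778, 792, 1080, 1162, 1192, 1290, 1304]),
    (false, dc 384, 1, cx [568, 680, 792, 904, 1080, 1192, 1304, 1416]),
    (false, dc 144, 3, cx [688, 912, 1200, 1424]),
    (false, dc 288, 4, cx [928, 1440]),
    (false, dc 1536, 5, cx [1920])]),
  (dc 16, [(false, dc 12, 0, cx [540, 568, 596, 624, 1052, 1080, 1108, 1136]),
    (false, dc 72, 2, cx [568, 600, 624, 1080, 1112, 1136]),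
    (false, dc 1536, 3, cx [624, 1136, 1584, 1616]),
    (false, dc 1632, 4, cx [1632])]),
  (dc 32, [(false, dc 132, 0, cx [568, 612, 624, 676, 680, 1080, 1124, 1136, 1188, 1192]),
    (false, dc 192, 2, cx [568, 624, 680, 736, 1080, 1136, 1192, 1248]),
    (false, dc 144, 3, cx [624, 688, 736, 1136, 1200, 1248]),
    (false, dc 1536, 4, cx [736, 1248, 1632, 1696]),
    (false, dc 1728, 5, cx [1728])]),
  (dc 64, [(false, dc 1536, 2, cx [624, 1136, 1616, 1632]),
    (false, dc 1584, 6, cx [1584])]),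
  (dc 128, [(false, dc 288, 0, cx [650, 680, 898, 928, 1162, 1192, 1410, 1440]),
    (false, dc 264, 1, cx [680, 904, 928, 1192, 1416, 1440]),
    (false, dc 1536, 3, cx [928, 1440, 1696, 1920]),
    (false, dc 1824, 7, cx [1824])]),
  (dc 256, [(false, dc 136, 0, cx [778, 898, 904, 1290, 1410, 1416]),
    (false, dc 1536, 1, cx [904, 1416, 1800, 1920]),
    (false, dc 1672, 8, cx [1672])]),
  (dc 5, [(false, dc 48, 0, cx [564, 1076]),
    (false, dc 1536, 2, cx [1584])]),
  (dc 9, [(false, dc 272, 0, cx [792, 1304]),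
    (false, dc 1536, 3, cx [1808])]),
  (dc 17, [(false, dc 12, 0, cx [540, 1052]),
    (false, dc 1536, 2, cx [1560])]),
  (dc 33, [(false, dc 132, 0, cx [676, 1188]),
    (false, dc 1536, 2, cx [1696])]),
  (dc 129, [(false, dc 288, 0, cx [928, 1440]),
    (false, dc 1536, 5, cx [1920])]),
  (dc 257, [(false, dc 136, 0, cx [904, 1416]),
    (false, dc 1536, 3, cx [1920])]),
  (dc 10, [(false, dc 384, 1, cx [904, 1416]),
    (false, dc 1536, 3, cx [1920])]),
  (dc 130, [(false, dc 264, 1, cx [904, 1416]),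
    (false, dc 1536, 3, cx [1920])]),
  (dc 258, [(false, dc 136, 1, cx [904, 1416]),
    (false, dc 1536, 3, cx [1920])]),
  (dc 20, [(false, dc 1536, 0, cx [596, 1108, 1556]),
    (false, dc 1600, 2, cx [1616])]),
  (dc 36, [(false, dc 1536, 0, cx [612, 1124, 1572]),
    (false, dc 1600, 2, cx [1632])]),
  (dc 68, [(false, dc 48, 2, cx [624, 1136]),
    (false, dc 1536, 4, cx [1632])]),
  (dc 24, [(false, dc 1536, 0, cx [568, 1080, 1560]),
    (false, dc 1568, 3, cx [1584])]),
  (dc 40, [(false, dc 144, 3, cx [688, 1200]),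
    (false, dc 1536, 4, cx [1696])]),
  (dc 136, [(false, dc 1536, 1, cx [680, 1192, 1672]),
    (false, dc 1568, 3, cx [1696])]),
  (dc 264, [(false, dc 1536, 0, cx [778, 1290, 1800]),
    (false, dc 1538, 3, cx [1794])]),
  (dc 48, [(false, dc 1536, 3, cx [624, 1136, 1584]),
    (false, dc 1600, 4, cx [1632])]),
  (dc 80, [(false, dc 1536, 2, cx [624, 1136, 1616]),
    (false, dc 1568, 4, cx [1632])]),
  (dc 96, [(false, dc 1536, 2, cx [624, 1136, 1632]),
    (false, dc 1552, 5, cx [1616])]),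
  (dc 160, [(false, dc 1536, 0, cx [680, 1192, 1696]),
    (false, dc 1544, 5, cx [1672])]),
  (dc 384, [(false, dc 1536, 0, cx [898, 1410, 1920]),
    (false, dc 1538, 7, cx [1794])]),
  (dc 21, [(false, dc 1536, 0, cx [1556])]),
  (dc 37, [(false, dc 1536, 0, cx [1572])]),
  (dc 25, [(false, dc 1536, 0, cx [1560])]),
  (dc 265, [(false, dc 1536, 0, cx [1800])]),
  (dc 161, [(false, dc 1536, 0, cx [1696])]),
  (dc 385, [(false, dc 1536, 0, cx [1920])]),
  (dc 138, [(false, dc 1536, 1, cx [1672])]),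
  (dc 266, [(false, dc 1536, 1, cx [1800])]),
  (dc 386, [(false, dc 1536, 1, cx [1920])]),
  (dc 84, [(false, dc 1536, 2, cx [1616])]),
  (dc 100, [(false, dc 1536, 2, cx [1632])]),
  (dc 56, [(false, dc 1536, 3, cx [1584])]),
  (dc 168, [(false, dc 1536, 3, cx [1696])]),
  (dc 112, [(false, dc 1536, 4, cx [1632])])]

theorem starL_ok : ∀ x ∈ starL, PathOK (star Tf x.1) x.2 := by decide +kernel

theorem starL_mem : ∀ F ∈ Sf, ∀ τ ∈ F.powerset, τ ≠ ∅ → ∃ x ∈ starL, x.1 = τ := by
  decide +kernel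

end Q207.Ear
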