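import Pool.Agent.Q207.Ear.DataB

set_option maxRecDepth 100000

attribute [-instance] Fintype.decidableForallFintype Fintype.decidableExistsFintype

open Finset

namespace Q207.Ear

def pT : Fin 11 → Fin 4 → ℤ := ![![-1, 1, -1, 0], ![-2, -3, 3, 0], ![4, 2, -1, 0], ![-1, -3, 4, 0], ![3, 0, 3, 0], ![3, -4, 0, 0], ![4, 1, 0, 0], ![-3, -4, 1, 0], ![-3, -2, 1, 0], ![1, -1, 0, 1], ![1, -1, 0, -1]]
def FcT : Fin 28 → Finset (Fin 11) := fun j => dc (![533, 1045, 549, 1061, 537, 1049, 777, 1289, 673, 1185, 897, 1409, 650, 1162, 778, 1290, 898, 1410, 596, 1108, 612, 1124, 568, 1080, 680, 1192, 624, 1136] j)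
def NT : Fin 28 → Fin 4 → ℤ := ![![-4, 20, 9, 39], ![-4, 20, 9, -39], ![1, -5, -29, 17], ![1, -5, -29, -17], ![-11, 20, 16, 46], ![-11, 20, 16, -46], ![-7, 10, 8, 26], ![-7, 10, 8, -26], ![-1, -2, -6, 4], ![-1, -2, -6, -4], ![-1, 0, -1, 3], ![-1, 0, -1, -3], ![-1, -1, 1, 8], ![-1, -1, 1, -8], ![-1, 1, 1, 4], ![-1, 1, 1, -4], ![-2, 0, 1, 9], ![-2, 0, 1, -9], ![2, 1, 1, 8], ![2, 1, 1, -8], ![5, -1, -1, 13], ![5, -1, -1, -13], ![13, -12, 16, 62], ![13, -12, 16, -62], ![1, -20, 6, 62], ![1, -20, 6, -62], ![15, -3, 4, 39], ![15, -3, 4, -39]]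
def cT : Fin 28 → ℤ := ![15, 15, 23, 23, 15, 15, 9, 9, 5, 5, 2, 2, 8, 8, 2, 2, 7, 7, 9, 9, 19, 19, 87, 87, 83, 83, 57, 57]
def HT : Fin 21 → Finset (Fin 11) := fun j => dc (![3, 65, 6, 18, 34, 66, 12, 132, 260, 72, 144, 272, 288, 192, 320, 1536, 41, 137, 49, 52, 392] j)
def GT : Fin 21 → Fin 11 → ℤ := ![![-31, -200, 1, 114, 1, 1, 1, 1, 110, 1, 1], ![-80, 11, 323, 11, 48, 11, -368, 11, 11, 11, 11], ![157, -339, -307, 40, 209, 40, 40, 40, 40, 40, 40], ![63, -346, 5, 352, -104, 5, 5, 5, 5, 5, 5], ![1, -80, 1, 52, 1, -9, 1, 30, 1, 1, 1], ![63, -307, 44, 79, 208, 44, -307, 44, 44, 44, 44], ![90, 35, -316, -344, 325, 35, 35, 35, 35, 35, 35], ![383, 35, -430, 35, 35, 234, 35, -432, 35, 35, 35], ![304, 34, -242, 34, 45, 34, 34, 34, -345, 34, 34], ![47, 47, 47, -408, 497, 86, -504, 47, 47, 47, 47], ![62, 62, 62, 470, -505, 90, 62, -489, 62, 62, 62], ![72, 2, 2, 94, -65, 2, 2, 2, -115, 2, 2], ![86,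 20, 20, 20, 20, -132, 20, 351, -445, 20, 20], ![38, 11, 11, 11, 11, 39, -82, -72, 11, 11, 11], ![224, 45, 81, 45, 93, 45, -334, 45, -334, 45, 45], ![292, 34, 116, 34, 34, 254, 34, 34, 34, -433, -433], ![-457, 110, 110, -355, 110, -261, 110, 303, 110, 110, 110], ![-144, 100, 14, -144, 14, 14, 14, -131, 235, 14, 14], ![-376, 79, 79, 79, -336, -233, 392, 79, 79, 79, 79], ![1, 1, -64, 1, -24, -12, 93, 1, 1, 1, 1], ![1, 120, 1, -78, 1, 1, 1, -15, -34, 1, 1]]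
def LT : Fin 4 → Fin 11 → ℤ := ![![-5, 5, 4, -4, 0, 0, 0, 0, 0, 0, 0], ![10, -25, -5, 20, 0, 0, 0, 0, 0, 0, 0], ![5, -20, -4, 19, 0, 0, 0, 0, 0, 0, 0], ![10, -40, -14, 29, 0, 0, 0, 0, 0, 15, 0]]
def FlT : List (Finset (Fin 11)) := [0, 1, 2, 4, 8, 16, 32, 64, 128, 256, 512, 1024, 5, 9, 17, 33, 129, 257, 513, 1025, 10, 130, 258, 514, 1026, 20, 36, 68, 516, 1028, 24, 40, 136, 264, 520, 1032, 48, 80, 528, 1040, 96, 160, 544, 1056, 576, 1088, 384, 640, 1152, 768, 1280, 21, 37, 517, 1029, 25, 265, 521, 1033, 529, 1041, 161, 545, 1057, 385, 641, 1153, 769, 1281, 138, 266, 522, 1034, 386, 642, 1154, 770, 1282, 84, 532, 1044, 100, 548, 1060, 580, 1092, 56, 536, 1048, 168, 552, 1064, 648, 1160, 776, 1288, 112, 560, 1072, 592, 1104, 608, 1120, 672, 1184, 896, 1408, 533, 1045, 549, 1061, 537, 1049, 777, 1289, 673, 1185, 897, 1409, 650, 1162, 778, 1290, 898, 1410, 596, 1108, 612, 1124, 568, 1080,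 680, 1192, 624, 1136].map dc

theorem certT : Cert 11 28 21 pT FcT NT cT HT GT LT 15 FlT where
  on := by decide +kernel
  off := by decide +kernel
  Fl0 := by decide +kernel
  Fl1 := by decide +kernel
  Fl2 := by decide +kernel
  dep0 := by decide +kernel
  dep := by decide +kernel
  pos := by decide +kernel
  ridge := by decide +kernel
  D0 := by decide +kernel
  L0 := by decide +kernel
  L1 := by decide +kernel
  ne := by decide +kernel
  vert := by decide +kernel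

end Q207.Ear
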