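import Pool.Agent.Q207.Ear.Abstract

/-!
# The convex ear decomposition
-/

open Finset

namespace Q207.Ear

variable {Sf Tf Bf : Finset (Finset X)} {t : ℕ} {E : Fin t → Finset X}

theorem ear_down (y : J Sf t) {s s' : Finset (VV t)} (h : s ∈ (ear Sf Tf Bf E y).faces)
    (hs : s' ⊆ s) : s' ∈ (ear Sf Tf Bf E y).faces := (ear Sf Tf Bf E y).down s h s' hs

/-- the whole complex -/
def whole (Sf Tf Bf : Finset (Finset X)) (E : Fin t → Finset X) : Cpx (VV t) where
  faces := {s | ∃ y : J Sf t, s ∈ (ear Sf Tf Bf E y).faces}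
  down := fun _ ⟨y, hy⟩ _ hs => ⟨y, ear_down y hy hs⟩

theorem card_le_of_gen {G : Finset (Finset X)} (hG : ∀ F ∈ G, F.card = 4) (l : X → Lab t)
    {s : Finset (VV t)} (hs : s ∈ ((gen (G : Set (Finset X))).map (emb l)).faces) :
    ∃ F ∈ G, s ⊆ F.map (emb l) := by
  obtain ⟨s0, ⟨F, hF, h⟩, rfl⟩ := hs
  exact ⟨F, hF, Finset.map_subset_map.2 h⟩

section
variable (hB : Base Sf Tf Bf t E)
include hB

/-- every face of an ear lies in a face with four elements of the same ear -/
theorem ear_top (y : J Sf t) {s : Finset (VV t)} (hs : s ∈ (ear Sf Tf Bf E y).faces) :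
    ∃ F ∈ (ear Sf Tf Bf E y).faces, s ⊆ F ∧ F.card = 4 := by
  rcases y with l | b
  · obtain ⟨s0, ⟨F, hF, h⟩, rfl⟩ := mem_ear_inl.1 hs
    refine ⟨F.map (emb l.1), mem_ear_inl.2 ⟨F, ⟨F, hF, Finset.Subset.refl _⟩, rfl⟩,
      Finset.map_subset_map.2 h, ?_⟩
    rw [Finset.card_map]; exact hB.cardT F (mem_star.1 hF).1
  · obtain ⟨s0, ⟨F, hF, h⟩, rfl⟩ := mem_ear_inr.1 hs
    refine ⟨F.map (emb (lab E b)), mem_ear_inr.2 ⟨F, ⟨F, hF, Finset.Subset.refl _⟩, rfl⟩,
      Finset.map_subset_map.2 h, ?_⟩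
    rw [Finset.card_map]; exact hB.cardB F hF

theorem face_card_le {s : Finset (VV t)} (hs : s ∈ (whole Sf Tf Bf E).faces) : s.card ≤ 4 := by
  obtain ⟨y, hy⟩ := hs
  obtain ⟨F, _, h1, h2⟩ := ear_top hB y hy
  rw [← h2]; exact Finset.card_le_card h1

theorem whole_facet {F : Finset (VV t)} : (whole Sf Tf Bf E).IsFacet F ↔
    F ∈ (whole Sf Tf Bf E).faces ∧ F.card = 4 := by
  constructor
  · rintro ⟨⟨y, hy⟩, hmax⟩
    refine ⟨⟨y, hy⟩, ?_⟩
    obtain ⟨G, hG, h1, h2⟩ := ear_top hB y hy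
    rw [← hmax G ⟨y, hG⟩ h1]; exact h2
  · rintro ⟨h1, h2⟩
    refine ⟨h1, fun G hG hFG => ?_⟩
    exact (Finset.eq_of_subset_of_card_le hFG (by rw [h2]; exact face_card_le hB hG)).symm

theorem star_nonempty {τ : Finset X} (h : InC Sf τ) : (star Tf τ).Nonempty := by
  obtain ⟨G, hG, h⟩ := inC_S_T hB h
  exact ⟨G, mem_star.2 ⟨hG, h⟩⟩

theorem ear_pure (y : J Sf t) : (ear Sf Tf Bf E y).Pure 4 := by
  rcases y with l | b
  · exact Cpx.pure_map (pure_gen (star_nonempty hB l.2)
      fun F hF => hB.cardT F (mem_star.1 hF).1)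
  · exact Cpx.pure_map (pure_gen hB.neB hB.cardB)

theorem whole_pure : (whole Sf Tf Bf E).Pure 4 := by
  refine ⟨?_, ?_⟩
  · obtain ⟨F, hF⟩ := hB.neB
    exact ⟨F.map (emb (lab E 0)), Sum.inr 0, F, ⟨F, hF, Finset.Subset.refl _⟩, rfl⟩
  · intro F hF
    exact ((whole_facet hB).1 hF).2

theorem inC_empty : InC Sf (supp (0 : X → Lab t)) := by
  obtain ⟨F, hF⟩ := hB.neS
  have : supp (0 : X → Lab t) = ∅ := by
    ext u; simp [mem_supp]
  rw [this]
  exact ⟨F, hF, Finset.empty_subset _⟩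

theorem rank_zero (y : J Sf t) (hy : rank Sf y = 0) :
    y = Sum.inl ⟨0, inC_empty hB⟩ := by
  rcases y with l | b
  · have h : supp l.1 = ∅ := Finset.card_eq_zero.1 hy
    congr 1
    apply Subtype.ext
    funext u
    by_contra hu
    have : u ∈ supp l.1 := mem_supp.2 hu
    rw [h] at this
    exact absurd this (Finset.notMem_empty _)
  · exact absurd hy (by show (14 : ℕ) ≠ 0; norm_num)

theorem decomposition
    (h0 : IsPolytopeBoundary ((gen (Tf : Set (Finset X))).map (emb (0 : X → Lab t))) 4)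
    (h1 : ∀ l : {l : X → Lab t // InC Sf (supp l)}, supp l.1 ≠ ∅ →
      (ear Sf Tf Bf E (Sum.inl l)).IsBall 3 ∧
      IsProperPolytopeSub (ear Sf Tf Bf E (Sum.inl l)) 4)
    (h2 : ∀ b : Lab t, (ear Sf Tf Bf E (Sum.inr b)).IsBall 3 ∧
      IsProperPolytopeSub (ear Sf Tf Bf E (Sum.inr b)) 4) :
    HasConvexEarDecomposition (whole Sf Tf Bf E) 4 := by
  classical
  refine ⟨whole_pure hB, ?_⟩
  haveI : Fintype {l : X → Lab t // InC Sf (supp l)} := Fintype.ofFinite _
  have hpos : 0 < Fintype.card (J Sf t) :=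
    Fintype.card_pos_iff.2 ⟨Sum.inl ⟨0, inC_empty hB⟩⟩
  obtain ⟨m, hm⟩ : ∃ m, Fintype.card (J Sf t) = m + 1 := ⟨Fintype.card (J Sf t) - 1, by omega⟩
  let e0 : Fin (m + 1) ≃ J Sf t := (Fintype.equivFinOfCardEq hm).symm
  let σ := Tuple.sort (rank Sf ∘ e0)
  have hmono : Monotone ((rank Sf ∘ e0) ∘ σ) := Tuple.monotone_sort _
  let e : Fin (m + 1) ≃ J Sf t := σ.trans e0
  have hm' : ∀ i j, i ≤ j → rank Sf (e i) ≤ rank Sf (e j) := fun i j h => hmono h
  have hlt : ∀ i j, rank Sf (e i) < rank Sf (e j) → i < j := by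
    intro i j h
    by_contra hcon
    exact absurd (hm' j i (not_lt.1 hcon)) (not_le.2 h)
  have he0 : e 0 = Sum.inl ⟨0, inC_empty hB⟩ := by
    apply rank_zero hB
    have := hm' 0 (e.symm (Sum.inl ⟨0, inC_empty hB⟩)) (Fin.zero_le _)
    rw [e.apply_symm_apply] at this
    have h0 : rank Sf (Sum.inl ⟨0, inC_empty hB⟩ : J Sf t) = 0 := by
      show (supp (0 : X → Lab t)).card = 0
      rw [Finset.card_eq_zero]
      ext u; simp [mem_supp]
    omega
  have hrank : ∀ j, j ≠ 0 → rank Sf (e j) ≠ 0 := by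
    intro j hj h
    apply hj
    apply e.injective
    rw [he0]
    exact rank_zero hB _ h
  refine ⟨m, fun j => ear Sf Tf Bf E (e j), fun j => ear_pure hB _, ?_, ?_, ?_⟩
  · show IsPolytopeBoundary (ear Sf Tf Bf E (e 0)) 4
    rw [he0]
    have : star Tf (supp (0 : X → Lab t)) = Tf := by
      ext F
      rw [mem_star]
      have : supp (0 : X → Lab t) = ∅ := by ext u; simp [mem_supp]
      rw [this]
      simp
    show IsPolytopeBoundary
      ((gen (star Tf (supp (0 : X → Lab t)) : Set (Finset X))).map (emb (0 : X → Lab t))) 4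
    rw [this]
    exact h0
  · intro j hj
    have hr := hrank j hj
    have hball : (ear Sf Tf Bf E (e j)).IsBall 3 ∧ IsProperPolytopeSub (ear Sf Tf Bf E (e j)) 4 := by
      generalize e j = y at hr
      rcases y with l | b
      · apply h1
        intro h; apply hr; show (supp l.1).card = 0; rw [h]; rfl
      · exact h2 b
    refine ⟨hball.1, hball.2, ?_⟩
    ext s
    constructor
    · rintro ⟨hs, i, hij, hs'⟩
      refine cond_a hB (e j) hr s hs (e i) (fun h => ?_) (hm' i j hij.le) hs'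
      exact absurd (e.injective h) hij.ne
    · intro hs
      obtain ⟨h3, y', hy', h4⟩ := cond_b hB (e j) hr s hs
      refine ⟨h3, e.symm y', ?_, ?_⟩
      · apply hlt
        rw [e.apply_symm_apply]; exact hy'
      · show s ∈ (ear Sf Tf Bf E (e (e.symm y'))).faces
        rw [e.apply_symm_apply]; exact h4
  · ext s
    constructor
    · rintro ⟨y, hy⟩
      refine ⟨e.symm y, ?_⟩
      show s ∈ (ear Sf Tf Bf E (e (e.symm y))).faces
      rw [e.apply_symm_apply]; exact hy
    · rintro ⟨j, hj⟩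
      exact ⟨e j, hj⟩

/-! ### Not shellable -/

theorem not_inC_card4 {G : Finset X} (h : G.card = 4) : ¬ InC Sf G := by
  rintro ⟨F, hF, hs⟩
  have := Finset.card_le_card hs
  rw [hB.cardS F hF] at this
  omega

/-- an interior face of the ball `b` lies only in facets of the ball `b` -/
theorem interior_only {b : Lab t} {r : Finset X} (hrB : InC Bf r) (hrS : ¬ InC Sf r)
    {F : Finset (VV t)} (hF : F ∈ (whole Sf Tf Bf E).faces) (hc : F.card = 4)
    (hr : r.map (emb (lab E b)) ⊆ F) : ∃ G ∈ Bf, G.map (emb (lab E b)) = F := by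
  obtain ⟨y, hy⟩ := hF
  rcases y with l | b'
  · exfalso
    have h := ear_down _ hy hr
    obtain ⟨s0, ⟨F', hF', h1⟩, he⟩ := mem_ear_inl.1 h
    obtain ⟨e1, _⟩ := map_emb_eq he
    subst e1
    exact hrS (inC_TB hB hrB ⟨F', (mem_star.1 hF').1, h1⟩)
  · have h := ear_down _ hy hr
    obtain ⟨s0, h1, he⟩ := mem_ear_inr.1 h
    obtain ⟨e1, e2⟩ := map_emb_eq he
    subst e1
    have hbb : b' = b := interior_private hB hrS e2
    subst hbb
    obtain ⟨s1, ⟨G, hG, h2⟩, rfl⟩ := mem_ear_inr.1 hy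
    rw [Finset.card_map] at hc
    have : s1 = G := Finset.eq_of_subset_of_card_le h2 (by rw [hc, hB.cardB G hG])
    exact ⟨G, hG, by rw [this]⟩

theorem not_shellable : ¬ Shellable (whole Sf Tf Bf E) := by
  classical
  rintro ⟨n, F, hinj, hfac, hsh⟩
  -- `P b j`: the `j`-th facet is a facet of the ball `b`
  let P : Lab t → Fin n → Prop := fun b j => ∃ G ∈ Bf, G.map (emb (lab E b)) = F j
  have hPex : ∀ b, ∃ j, P b j := by
    intro b
    obtain ⟨G, hG⟩ := hB.neB
    have h1 : (whole Sf Tf Bf E).IsFacet (G.map (emb (lab E b))) := by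
      rw [whole_facet hB]
      refine ⟨⟨Sum.inr b, G, ⟨G, hG, Finset.Subset.refl _⟩, rfl⟩, ?_⟩
      rw [Finset.card_map]; exact hB.cardB G hG
    obtain ⟨j, hj⟩ := (hfac _).1 h1
    exact ⟨j, G, hG, hj.symm⟩
  have hPmin : ∀ b, ∃ j, P b j ∧ ∀ i < j, ¬ P b i := by
    intro b
    obtain ⟨j, hj, hmin⟩ := Finset.exists_min_image (Finset.univ.filter fun j => P b j) id
      (by obtain ⟨j, hj⟩ := hPex b; exact ⟨j, by simp [hj]⟩)
    simp only [Finset.mem_filter, Finset.mem_univ, true_and, id] at hj hmin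
    exact ⟨j, hj, fun i hi h => absurd (hmin i h) (not_le.2 hi)⟩
  choose jj hjP hjmin using hPmin
  have hFface : ∀ i, F i ∈ (whole Sf Tf Bf E).faces ∧ (F i).card = 4 := fun i =>
    (whole_facet hB).1 ((hfac _).2 ⟨i, rfl⟩)
  -- two balls with a common facet are equal
  have huniq : ∀ b b' j, P b j → P b' j → b = b' := by
    rintro b b' j ⟨G, hG, h1⟩ ⟨G', hG', h2⟩
    rw [← h2] at h1
    obtain ⟨_, e2⟩ := map_emb_eq h1
    exact interior_private hB (not_inC_card4 hB (hB.cardB G hG)) e2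
  -- the obstruction
  have hobs : ∀ b, 0 < (jj b : ℕ) → ∃ k : Fin t, (E k).map (emb (lab E b)) ⊆ F (jj b) ∧
      ∀ i < jj b, ¬ (E k).map (emb (lab E b)) ⊆ F i := by
    intro b hb
    obtain ⟨G, hG, hGF⟩ := hjP b
    obtain ⟨k, hk, hbad⟩ := hB.bad G hG
    refine ⟨k, by rw [← hGF]; exact Finset.map_subset_map.2 hk, ?_⟩
    intro i hi hsub
    have hpure := hsh (jj b) hb
    set K := (gen {F (jj b)}).inter (gen {G | ∃ i < jj b, F i = G}) with hK
    have hmem : (E k).map (emb (lab E b)) ∈ K.faces := by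
      refine ⟨⟨F (jj b), rfl, ?_⟩, ⟨F i, ⟨i, hi, rfl⟩, hsub⟩⟩
      rw [← hGF]; exact Finset.map_subset_map.2 hk
    obtain ⟨r, hr, hEr⟩ := K.exists_facet hmem
    have hrc : r.card = 3 := by
      rw [hpure.2 r hr, (hFface _).2]
    obtain ⟨⟨F1, hF1, hr1⟩, ⟨F2, ⟨i', hi', hF2⟩, hr2⟩⟩ := hr.1
    have hF1' : F1 = F (jj b) := hF1
    subst hF1'
    subst hF2
    rw [← hGF] at hr1
    obtain ⟨r0, hr0, rfl⟩ := Finset.subset_map_iff.1 hr1
    rw [Finset.card_map] at hrc
    have hEr0 : E k ⊆ r0 := Finset.map_subset_map.1 hEr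
    -- `r0 = G.erase v`
    have hcard : (G \ r0).card = 1 := by
      rw [Finset.card_sdiff_of_subset hr0, hrc, hB.cardB G hG]
    obtain ⟨v, hv⟩ := Finset.card_eq_one.1 hcard
    have hvG : v ∈ G \ r0 := by rw [hv]; exact Finset.mem_singleton_self _
    have hre : r0 = G.erase v := by
      apply Finset.eq_of_subset_of_card_le
      · intro w hw
        exact Finset.mem_erase.2 ⟨fun e => (Finset.mem_sdiff.1 hvG).2 (e ▸ hw), hr0 hw⟩
      · rw [Finset.card_erase_of_mem (Finset.mem_sdiff.1 hvG).1, hB.cardB G hG, hrc]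
    have hnS : r0 ∉ Sf := by
      rw [hre]
      exact hbad v (Finset.mem_sdiff.1 hvG).1 (by rw [← hre]; exact hEr0)
    have hnC : ¬ InC Sf r0 := by
      rintro ⟨S, hS, hsub'⟩
      have : r0 = S := Finset.eq_of_subset_of_card_le hsub' (by rw [hrc, hB.cardS S hS])
      exact hnS (this ▸ hS)
    obtain ⟨G', hG', hG'F⟩ := interior_only hB (b := b) ⟨G, hG, hr0⟩ hnC (hFface i').1
      (hFface i').2 hr2
    exact hjmin b i' hi' ⟨G', hG', hG'F⟩
  -- the balls that are not first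
  let N : Type := {b : Lab t // 0 < (jj b : ℕ)}
  haveI : Fintype N := Fintype.ofFinite _
  have hk : ∀ b : N, ∃ k : Fin t, (E k).map (emb (lab E b.1)) ⊆ F (jj b.1) ∧
      ∀ i < jj b.1, ¬ (E k).map (emb (lab E b.1)) ⊆ F i := fun b => hobs b.1 b.2
  choose kk hk1 hk2 using hk
  let φ : N × Fin (t + 2) → Fin t × Lab t := fun x =>
    (kk x.1, Function.update x.1.1 (kk x.1) x.2)
  have hφ : Function.Injective φ := by
    rintro ⟨b, s⟩ ⟨b', s'⟩ h
    have h1 : kk b = kk b' := (Prod.mk.inj h).1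
    have h2 : Function.update b.1 (kk b) s = Function.update b'.1 (kk b') s' := (Prod.mk.inj h).2
    rw [← h1] at h2
    have hs : s = s' := by
      have := congrFun h2 (kk b)
      simpa using this
    have hoff : ∀ k, k ≠ kk b → b.1 k = b'.1 k := by
      intro k hk
      have := congrFun h2 k
      simpa [Function.update_of_ne hk] using this
    have hEq : (E (kk b)).map (emb (lab E b.1)) = (E (kk b)).map (emb (lab E b'.1)) := by
      apply map_emb_congr
      intro u hu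
      funext k
      by_cases hk : k = kk b
      · subst hk; simp [lab, hu]
      · simp only [lab]; rw [hoff k hk]
    have hjj : jj b.1 = jj b'.1 := by
      rcases lt_trichotomy (jj b.1) (jj b'.1) with hlt | heq | hgt
      · exfalso
        apply hk2 b' (jj b.1) hlt
        rw [← h1, ← hEq]; exact hk1 b
      · exact heq
      · exfalso
        apply hk2 b (jj b'.1) hgt
        rw [hEq]
        have := hk1 b'
        rw [← h1] at this; exact this
    have hbb : b.1 = b'.1 := huniq _ _ (jj b.1) (hjP _) (by rw [hjj]; exact hjP _)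
    rw [Prod.mk.injEq]
    exact ⟨Subtype.ext hbb, hs⟩
  have hcard1 := Fintype.card_le_of_injective φ hφ
  have hcardN : Fintype.card (Lab t) ≤ Fintype.card N + 1 := by
    have hc := Fintype.card_subtype_compl (fun b : Lab t => 0 < (jj b : ℕ))
    have h2 : Fintype.card {b : Lab t // ¬ 0 < (jj b : ℕ)} ≤ 1 := by
      rw [Fintype.card_le_one_iff]
      rintro ⟨b, hb⟩ ⟨b', hb'⟩
      apply Subtype.ext
      have e : jj b = jj b' := Fin.ext (by omega)
      exact huniq b b' (jj b) (hjP b) (by rw [e]; exact hjP b')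
    have h3 : Fintype.card N = Fintype.card {b : Lab t // 0 < (jj b : ℕ)} :=
      Fintype.card_congr (Equiv.refl _)
    omega
  rw [Fintype.card_prod, Fintype.card_prod, Fintype.card_fin, Fintype.card_fin] at hcard1
  have hLab : Fintype.card (Lab t) = (t + 2) ^ t := by simp [Lab]
  rw [hLab] at hcard1 hcardN
  have hpow : t + 2 ≤ (t + 2) ^ t := by
    calc t + 2 = (t + 2) ^ 1 := (pow_one _).symm
      _ ≤ (t + 2) ^ t := Nat.pow_le_pow_right (by omega) hB.tpos
  nlinarith [Nat.zero_le (Fintype.card N)]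

end

end Q207.Ear
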