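import Mathlib

/-!
# Convex ear decompositions and shellability: definitions

All the notions of problem MP_cf6e1a_co, written out for finite abstract simplicial complexes.
-/

open Finset

namespace Q207.Ear

/-- An abstract simplicial complex with vertices in `V`: a set of finite subsets of `V` (its faces)
that is closed under taking subsets.  (All the types `V` used below are finite.) -/
structure Cpx (V : Type) where
  faces : Set (Finset V)
  down : ∀ s ∈ faces, ∀ t, t ⊆ s → t ∈ faces

variable {V U : Type}

/-- The complex generated by a set `G` of faces. -/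
def gen (G : Set (Finset V)) : Cpx V where
  faces := {s | ∃ F ∈ G, s ⊆ F}
  down := fun _ ⟨F, hF, hs⟩ _ ht => ⟨F, hF, ht.trans hs⟩

/-- The intersection of two complexes. -/
def Cpx.inter (K L : Cpx V) : Cpx V where
  faces := K.faces ∩ L.faces
  down := fun s hs t ht => ⟨K.down s hs.1 t ht, L.down s hs.2 t ht⟩

/-- `F` is a facet (a face maximal under inclusion). -/
def Cpx.IsFacet (K : Cpx V) (F : Finset V) : Prop :=
  F ∈ K.faces ∧ ∀ G ∈ K.faces, F ⊆ G → G = F

/-- `K` is pure of dimension `d - 1`: it is not void and all its facets have `d` vertices. -/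
def Cpx.Pure (K : Cpx V) (d : ℕ) : Prop :=
  K.faces.Nonempty ∧ ∀ F, K.IsFacet F → F.card = d

/-- Shellability: the facets can be ordered `F 0, F 1, ...` so that, for `j > 0`, the complex
`⟨F j⟩ ∩ ⟨F 0, ..., F (j-1)⟩` is pure of dimension `dim (F j) - 1`. -/
def Shellable (K : Cpx V) : Prop :=
  ∃ (n : ℕ) (F : Fin n → Finset V), Function.Injective F ∧
    (∀ G, K.IsFacet G ↔ ∃ i, F i = G) ∧
    ∀ j : Fin n, 0 < (j : ℕ) →
      ((gen {F j}).inter (gen {G | ∃ i < j, F i = G})).Pure ((F j).card - 1)

/-- The geometric realization of `K` (barycentric coordinates), a subset of `V → ℝ`. -/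
def Cpx.real (K : Cpx V) : Set (V → ℝ) :=
  {x | (∀ v, 0 ≤ x v) ∧ ∃ s ∈ K.faces, (∀ v, v ∉ s → x v = 0) ∧ ∑ v ∈ s, x v = 1}

/-- `K` is a simplicial `k`-ball: its geometric realization is homeomorphic to the closed unit
ball of the `k`-dimensional Euclidean space. -/
def Cpx.IsBall (K : Cpx V) (k : ℕ) : Prop :=
  Nonempty (K.real ≃ₜ Metric.closedBall (0 : EuclideanSpace ℝ (Fin k)) 1)

/-- The boundary complex of a pure `(d-1)`-dimensional ball: generated by the faces with `d - 1`
vertices that lie in exactly one face with `d` vertices. -/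
def Cpx.boundary (K : Cpx V) (d : ℕ) : Set (Finset V) :=
  {s | ∃ r ∈ K.faces, s ⊆ r ∧ r.card + 1 = d ∧ ∃! F, F ∈ K.faces ∧ F.card = d ∧ r ⊆ F}

/-- The points `p u` (`u ∈ s`) are exactly those of the points `p` that lie on some supporting
hyperplane of the convex hull of all the points, and they are not all the points. -/
def ProperFace [Fintype U] {d : ℕ} (p : U → Fin d → ℝ) (s : Finset U) : Prop :=
  s ≠ univ ∧ ∃ (a : Fin d → ℝ) (c : ℝ),
    (∀ u ∈ s, ∑ i, a i * p u i = c) ∧ ∀ u, u ∉ s → ∑ i, a i * p u i < c

/-- The convex hull of the points `p u` is a `d`-dimensional simplicial polytope whose vertices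
are exactly the points `p u` (one vertex for each `u`): the points lie on no common hyperplane,
each single point is a proper face, and the points of each proper face are affinely
independent. -/
structure IsSimplicialPolytope [Fintype U] {d : ℕ} (p : U → Fin d → ℝ) : Prop where
  full : ∀ (a : Fin d → ℝ) (c : ℝ), (∀ u, ∑ i, a i * p u i = c) → a = 0
  vertex : ∀ u : U, ProperFace p {u}
  simplicial : ∀ s, ProperFace p s → AffineIndependent ℝ (fun u : s => p u)

/-- `K` is isomorphic to the boundary complex of a simplicial `d`-polytope. -/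
def IsPolytopeBoundary (K : Cpx V) (d : ℕ) : Prop :=
  ∃ (U : Type) (_ : Fintype U) (p : U → Fin d → ℝ) (f : U ↪ V), IsSimplicialPolytope p ∧
    ∀ s, s ∈ K.faces ↔ ∃ t, ProperFace p t ∧ t.map f = s

/-- `K` is isomorphic to a proper subcomplex of the boundary complex of a simplicial
`d`-polytope: `f` maps the vertices of `K` injectively to vertices of the polytope, faces to
proper faces, and some proper face is not the image of a face of `K`. -/
def IsProperPolytopeSub (K : Cpx V) (d : ℕ) : Prop :=
  ∃ (U : Type) (_ : Fintype U) (_ : DecidableEq U) (p : U → Fin d → ℝ) (f : V → U),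
    IsSimplicialPolytope p ∧
    (∀ v w, {v} ∈ K.faces → {w} ∈ K.faces → f v = f w → v = w) ∧
    (∀ s ∈ K.faces, ProperFace p (s.image f)) ∧
    ∃ t, ProperFace p t ∧ ∀ s ∈ K.faces, s.image f ≠ t

/-- `K`, pure of dimension `d - 1`, admits a convex ear decomposition `E 0, ..., E m`. -/
def HasConvexEarDecomposition (K : Cpx V) (d : ℕ) : Prop :=
  K.Pure d ∧ ∃ (m : ℕ) (E : Fin (m + 1) → Cpx V),
    (∀ j, (E j).Pure d) ∧
    IsPolytopeBoundary (E 0) d ∧
    (∀ j, j ≠ 0 → (E j).IsBall (d - 1) ∧ IsProperPolytopeSub (E j) d ∧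
      {s | s ∈ (E j).faces ∧ ∃ i < j, s ∈ (E i).faces} = (E j).boundary d) ∧
    K.faces = {s | ∃ j, s ∈ (E j).faces}

end Q207.Ear
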