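import Pool.Agent.Q207.Ear.DataS
import Pool.Agent.Q207.Ear.DataT
import Pool.Agent.Q207.Ear.DataP

/-!
# A nonshellable complex with a convex ear decomposition
-/

set_option maxRecDepth 100000

attribute [-instance] Fintype.decidableForallFintype Fintype.decidableExistsFintype

open Finset

namespace Q207.Ear

theorem properSub_of {t n m h : ℕ} {p : Fin n → Fin 4 → ℤ} {Fc : Fin m → Finset (Fin n)}
    {N : Fin m → Fin 4 → ℤ} {c : Fin m → ℤ} {H : Fin h → Finset (Fin n)}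
    {Γ : Fin h → Fin n → ℤ} {L : Fin 4 → Fin n → ℤ} {D : ℤ} {Fl : List (Finset (Fin n))}
    (C : Cert n m h p Fc N c H Γ L D Fl) {G : Finset (Finset X)} (l : X → Lab t) (g : X → Fin n)
    (hinj : ∀ x y, (∃ F ∈ G, x ∈ F) → (∃ F ∈ G, y ∈ F) → g x = g y → x = y)
    (hface : ∀ F ∈ G, ∃ j, F.image g ⊆ Fc j)
    (hprop : ∃ j, ∀ F ∈ G, ¬ Fc j ⊆ F.image g) :
    IsProperPolytopeSub ((gen (G : Set (Finset X))).map (emb l)) 4 := by
  classical
  have himg : ∀ s : Finset X, (s.map (emb l)).image (fun v : VV t => g v.1) = s.image g := by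
    intro s
    ext u
    simp only [Finset.mem_image, Finset.mem_map]
    constructor
    · rintro ⟨v, ⟨w, hw, rfl⟩, rfl⟩; exact ⟨w, hw, rfl⟩
    · rintro ⟨w, hw, rfl⟩; exact ⟨emb l w, ⟨w, hw, rfl⟩, rfl⟩
  refine ⟨Fin n, inferInstance, inferInstance, rp p, fun v => g v.1, C.polytope, ?_, ?_, ?_⟩
  · have key : ∀ v : VV t, {v} ∈ ((gen (G : Set (Finset X))).map (emb l)).faces →
        (∃ F ∈ G, v.1 ∈ F) ∧ v.2 = l v.1 := by
      rintro v ⟨s0, ⟨F, hF, hs⟩, he⟩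
      have hv : v ∈ s0.map (emb l) := by rw [he]; exact Finset.mem_singleton_self _
      obtain ⟨u, hu, rfl⟩ := Finset.mem_map.1 hv
      exact ⟨⟨F, hF, hs hu⟩, rfl⟩
    intro v w hv hw hvw
    obtain ⟨h1, h2⟩ := key v hv
    obtain ⟨h3, h4⟩ := key w hw
    have h5 : v.1 = w.1 := hinj _ _ h1 h3 hvw
    exact Prod.ext h5 (by rw [h2, h4, h5])
  · rintro s ⟨s0, ⟨F, hF, hs⟩, rfl⟩
    rw [C.face_iff]
    obtain ⟨j, hj⟩ := hface F hF
    refine ⟨j, ?_⟩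
    rw [himg]
    exact (Finset.image_subset_image hs).trans hj
  · obtain ⟨j, hj⟩ := hprop
    refine ⟨Fc j, C.face_iff.2 ⟨j, Finset.Subset.refl _⟩, ?_⟩
    rintro s ⟨s0, ⟨F, hF, hs⟩, rfl⟩ he
    apply hj F hF
    rw [himg] at he
    rw [← he]
    exact Finset.image_subset_image hs

def gT : X → Fin 11 := fun x => ⟨x.1 % 11, Nat.mod_lt _ (by norm_num)⟩
def gP : X → Fin 9 := fun x => ⟨x.1 % 9, Nat.mod_lt _ (by norm_num)⟩

theorem gT_inj : ∀ x y : X, (∃ F ∈ Tf, x ∈ F) → (∃ F ∈ Tf, y ∈ F) → gT x = gT y → x = y := by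
  decide +kernel

theorem gP_inj : ∀ x y : X, (∃ F ∈ Bf, x ∈ F) → (∃ F ∈ Bf, y ∈ F) → gP x = gP y → x = y := by
  decide +kernel

theorem gT_face : ∀ F ∈ Tf, ∃ j, F.image gT ⊆ FcT j := by decide +kernel

theorem gP_face : ∀ F ∈ Bf, ∃ j, F.image gP ⊆ FcP j := by decide +kernel

theorem gT_prop : ∀ F ∈ Sf, ∀ τ ∈ F.powerset, τ ≠ ∅ →
    ∃ j, ∀ F' ∈ star Tf τ, ¬ FcT j ⊆ F'.image gT := by decide +kernel

theorem gP_prop : ∃ j, ∀ F ∈ Bf, ¬ FcP j ⊆ F.image gP := by decide +kernel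

def e11 : Fin 11 ↪ X := Fin.castLEEmb (by norm_num)

theorem Tf_eq1 : ∀ F ∈ Tf, ∃ j, F = (FcT j).map e11 := by decide +kernel

theorem Tf_eq2 : ∀ j, (FcT j).map e11 ∈ Tf := by decide +kernel

theorem boundary0 :
    IsPolytopeBoundary ((gen (Tf : Set (Finset X))).map (emb (0 : X → Lab 4))) 4 := by
  refine ⟨Fin 11, inferInstance, rp pT, e11.trans (emb 0), certT.polytope, ?_⟩
  intro s
  constructor
  · rintro ⟨s0, ⟨F, hF, hs⟩, rfl⟩
    obtain ⟨j, rfl⟩ := Tf_eq1 F hF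
    obtain ⟨u, hu, rfl⟩ := Finset.subset_map_iff.1 hs
    exact ⟨u, certT.face_iff.2 ⟨j, hu⟩, (Finset.map_map _ _ _).symm⟩
  · rintro ⟨u, hu, rfl⟩
    obtain ⟨j, hj⟩ := certT.face_iff.1 hu
    exact ⟨u.map e11, ⟨(FcT j).map e11, Tf_eq2 j, Finset.map_subset_map.2 hj⟩,
      Finset.map_map _ _ _⟩

theorem starBall (l : {l : X → Lab 4 // InC Sf (supp l)}) (hl : supp l.1 ≠ ∅) :
    (ear Sf Tf Bf Ef (Sum.inl l)).IsBall 3 := by
  obtain ⟨F, hF, h⟩ := l.2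
  obtain ⟨x, hx, he⟩ := starL_mem F hF _ (Finset.mem_powerset.2 h) hl
  have := starL_ok x hx
  rw [he] at this
  exact Cpx.ball_map (ball_of_path x.2 this)

theorem starSub (l : {l : X → Lab 4 // InC Sf (supp l)}) (hl : supp l.1 ≠ ∅) :
    IsProperPolytopeSub (ear Sf Tf Bf Ef (Sum.inl l)) 4 := by
  obtain ⟨F, hF, h⟩ := l.2
  refine properSub_of certT l.1 gT ?_ ?_ (gT_prop F hF _ (Finset.mem_powerset.2 h) hl)
  · rintro x y ⟨F1, h1, h2⟩ ⟨F2, h3, h4⟩ he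
    exact gT_inj x y ⟨F1, (mem_star.1 h1).1, h2⟩ ⟨F2, (mem_star.1 h3).1, h4⟩ he
  · intro F' hF'
    exact gT_face F' (mem_star.1 hF').1

theorem ball_and_sub (b : Lab 4) : (ear Sf Tf Bf Ef (Sum.inr b)).IsBall 3 ∧
    IsProperPolytopeSub (ear Sf Tf Bf Ef (Sum.inr b)) 4 :=
  ⟨Cpx.ball_map (ball_of_path pathB pathB_ok), properSub_of certP _ gP gP_inj gP_face gP_prop⟩

/-- There is a finite simplicial complex (of dimension 3) with a convex ear decomposition that is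
not shellable. -/
theorem main : ∃ (V : Type) (_ : Fintype V) (K : Cpx V),
    HasConvexEarDecomposition K 4 ∧ ¬ Shellable K :=
  ⟨VV 4, inferInstance, whole Sf Tf Bf Ef,
    decomposition base boundary0 (fun l hl => ⟨starBall l hl, starSub l hl⟩) ball_and_sub,
    not_shellable base⟩

end Q207.Ear
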