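import Pool.Agent.Q207.Ear.Defs

/-!
# Certified simplicial 4-polytopes with integer vertices
-/

open Finset

namespace Q207.Ear

/-- Integer certificate that the points `p` are the vertices of a simplicial 4-polytope whose
facets are the `Fc j`. -/
structure Cert (n m h : ℕ) (p : Fin n → Fin 4 → ℤ) (Fc : Fin m → Finset (Fin n))
    (N : Fin m → Fin 4 → ℤ) (c : Fin m → ℤ) (H : Fin h → Finset (Fin n))
    (Γ : Fin h → Fin n → ℤ) (L : Fin 4 → Fin n → ℤ) (D : ℤ) (Fl : List (Finset (Fin n))) :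
    Prop where
  on : ∀ j u, u ∈ Fc j → ∑ i, N j i * p u i = c j
  off : ∀ j u, u ∉ Fc j → ∑ i, N j i * p u i < c j
  Fl0 : ∅ ∈ Fl
  Fl1 : ∀ s ∈ Fl, ∃ j, s ⊆ Fc j
  Fl2 : ∀ s ∈ Fl, ∀ v : Fin n, (∀ w ∈ s, w < v) → insert v s ∈ Fl ∨ ∃ k, H k ⊆ insert v s
  dep0 : ∀ k, ∑ u, Γ k u = 0
  dep : ∀ k i, ∑ u, Γ k u * p u i = 0
  pos : ∀ k u, u ∉ H k → 0 < Γ k u
  ridge : ∀ j v, v ∈ Fc j → ∃ j', (Fc j).erase v ⊆ Fc j' ∧ v ∉ Fc j'
  D0 : D ≠ 0
  L0 : ∀ i, ∑ u, L i u = 0
  L1 : ∀ i i', ∑ u, L i u * p u i' = if i = i' then D else 0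
  ne : ∀ j, ∃ u, u ∉ Fc j
  vert : ∀ u, ∃ j, u ∈ Fc j

/-- the real points -/
def rp {n : ℕ} (p : Fin n → Fin 4 → ℤ) : Fin n → Fin 4 → ℝ := fun u i => (p u i : ℝ)

variable {n m h : ℕ} {p : Fin n → Fin 4 → ℤ} {Fc : Fin m → Finset (Fin n)}
    {N : Fin m → Fin 4 → ℤ} {c : Fin m → ℤ} {H : Fin h → Finset (Fin n)}
    {Γ : Fin h → Fin n → ℤ} {L : Fin 4 → Fin n → ℤ} {D : ℤ} {Fl : List (Finset (Fin n))}

theorem Cert.cover (C : Cert n m h p Fc N c H Γ L D Fl) (s : Finset (Fin n)) :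
    (∃ j, s ⊆ Fc j) ∨ ∃ k, H k ⊆ s := by
  have : s ∈ Fl ∨ ∃ k, H k ⊆ s := by
    refine Finset.induction_on_max s (Or.inl C.Fl0) ?_
    rintro a s hs (h | ⟨k, hk⟩)
    · exact C.Fl2 s h a hs
    · exact Or.inr ⟨k, hk.trans (Finset.subset_insert _ _)⟩
  rcases this with h | h
  · exact Or.inl (C.Fl1 s h)
  · exact Or.inr h

theorem Cert.inter (C : Cert n m h p Fc N c H Γ L D Fl) (s : Finset (Fin n))
    (hs : ∃ j, s ⊆ Fc j) (u : Fin n) (hu : u ∉ s) : ∃ j, s ⊆ Fc j ∧ u ∉ Fc j := by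
  obtain ⟨j, hj⟩ := hs
  by_cases huj : u ∈ Fc j
  · obtain ⟨j', h1, h2⟩ := C.ridge j u huj
    refine ⟨j', fun w hw => h1 (Finset.mem_erase.2 ⟨fun e => hu (e ▸ hw), hj hw⟩), h2⟩
  · exact ⟨j, hj, huj⟩

theorem Cert.onR (C : Cert n m h p Fc N c H Γ L D Fl) (j : Fin m) (u : Fin n) (hu : u ∈ Fc j) :
    ∑ i, (N j i : ℝ) * rp p u i = c j := by
  have := C.on j u hu
  unfold rp
  exact_mod_cast this

theorem Cert.offR (C : Cert n m h p Fc N c H Γ L D Fl) (j : Fin m) (u : Fin n) (hu : u ∉ Fc j) :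
    ∑ i, (N j i : ℝ) * rp p u i < c j := by
  have := C.off j u hu
  unfold rp
  exact_mod_cast this

theorem Cert.leR (C : Cert n m h p Fc N c H Γ L D Fl) (j : Fin m) (u : Fin n) :
    ∑ i, (N j i : ℝ) * rp p u i ≤ c j := by
  by_cases hu : u ∈ Fc j
  · exact (C.onR j u hu).le
  · exact (C.offR j u hu).le

theorem Cert.face_of (C : Cert n m h p Fc N c H Γ L D Fl) {s : Finset (Fin n)}
    (hs : ∃ j, s ⊆ Fc j) : ProperFace (rp p) s := by
  classical
  obtain ⟨j0, hj0⟩ := hs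
  refine ⟨?_, ?_⟩
  · rintro rfl
    obtain ⟨u, hu⟩ := C.ne j0
    exact hu (hj0 (Finset.mem_univ u))
  · set J : Finset (Fin m) := Finset.univ.filter fun j => s ⊆ Fc j with hJ
    refine ⟨fun i => ∑ j ∈ J, (N j i : ℝ), ∑ j ∈ J, (c j : ℝ), ?_, ?_⟩
    · intro u hu
      have : ∑ i, (∑ j ∈ J, (N j i : ℝ)) * rp p u i = ∑ j ∈ J, ∑ i, (N j i : ℝ) * rp p u i := by
        rw [Finset.sum_comm]
        exact Finset.sum_congr rfl fun i _ => by rw [Finset.sum_mul]
      rw [this]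
      exact Finset.sum_congr rfl fun j hj => C.onR j u ((Finset.mem_filter.1 hj).2 hu)
    · intro u hu
      have : ∑ i, (∑ j ∈ J, (N j i : ℝ)) * rp p u i = ∑ j ∈ J, ∑ i, (N j i : ℝ) * rp p u i := by
        rw [Finset.sum_comm]
        exact Finset.sum_congr rfl fun i _ => by rw [Finset.sum_mul]
      rw [this]
      obtain ⟨j1, hj1, hu1⟩ := C.inter s ⟨j0, hj0⟩ u hu
      exact Finset.sum_lt_sum (fun j _ => C.leR j u)
        ⟨j1, Finset.mem_filter.2 ⟨Finset.mem_univ _, hj1⟩, C.offR j1 u hu1⟩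

theorem Cert.of_face (C : Cert n m h p Fc N c H Γ L D Fl) {s : Finset (Fin n)}
    (hs : ProperFace (rp p) s) : ∃ j, s ⊆ Fc j := by
  classical
  rcases C.cover s with hj | ⟨k, hk⟩
  · exact hj
  exfalso
  obtain ⟨hne, a, b, hon, hoff⟩ := hs
  have key : ∑ u, (Γ k u : ℝ) * (∑ i, a i * rp p u i - b) = 0 := by
    have h0 : ∑ u, (Γ k u : ℝ) = 0 := by exact_mod_cast C.dep0 k
    have h1 : ∀ i, ∑ u, (Γ k u : ℝ) * rp p u i = 0 := by
      intro i
      unfold rp
      exact_mod_cast C.dep k i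
    have : ∑ u, (Γ k u : ℝ) * (∑ i, a i * rp p u i - b) =
        ∑ i, a i * ∑ u, (Γ k u : ℝ) * rp p u i - b * ∑ u, (Γ k u : ℝ) := by
      simp only [mul_sub, Finset.sum_sub_distrib, Finset.mul_sum]
      rw [Finset.sum_comm]
      congr 1
      · exact Finset.sum_congr rfl fun i _ => Finset.sum_congr rfl fun u _ => by ring
      · exact Finset.sum_congr rfl fun u _ => by ring
    rw [this, h0]
    simp only [h1]
    simp
  have hle : ∀ u ∈ Finset.univ, (Γ k u : ℝ) * (∑ i, a i * rp p u i - b) ≤ 0 := by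
    intro u _
    by_cases hu : u ∈ s
    · rw [hon u hu, sub_self, mul_zero]
    · have h1 : (0 : ℝ) < Γ k u := by exact_mod_cast C.pos k u fun h => hu (hk h)
      have h2 := hoff u hu
      have h3 : ∑ i, a i * rp p u i - b < 0 := by linarith
      exact (mul_neg_of_pos_of_neg h1 h3).le
  obtain ⟨u, hu⟩ : ∃ u, u ∉ s := by
    by_contra hcon
    push Not at hcon
    exact hne (Finset.eq_univ_iff_forall.2 hcon)
  have hlt : ∑ u, (Γ k u : ℝ) * (∑ i, a i * rp p u i - b) < ∑ u : Fin n, (0 : ℝ) := by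
    refine Finset.sum_lt_sum hle ⟨u, Finset.mem_univ _, ?_⟩
    have h1 : (0 : ℝ) < Γ k u := by exact_mod_cast C.pos k u fun h => hu (hk h)
    have h2 := hoff u hu
    have h3 : ∑ i, a i * rp p u i - b < 0 := by linarith
    exact mul_neg_of_pos_of_neg h1 h3
  rw [key] at hlt
  simp at hlt

theorem Cert.face_iff (C : Cert n m h p Fc N c H Γ L D Fl) {s : Finset (Fin n)} :
    ProperFace (rp p) s ↔ ∃ j, s ⊆ Fc j := ⟨C.of_face, C.face_of⟩

theorem Cert.polytope (C : Cert n m h p Fc N c H Γ L D Fl) : IsSimplicialPolytope (rp p) where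
  full := by
    intro a b hab
    funext i
    have hD : (D : ℝ) ≠ 0 := by exact_mod_cast C.D0
    have h0 : ∑ u, (L i u : ℝ) = 0 := by exact_mod_cast C.L0 i
    have h1 : ∀ i', ∑ u, (L i u : ℝ) * rp p u i' = if i = i' then (D : ℝ) else 0 := by
      intro i'
      have := C.L1 i i'
      unfold rp
      split_ifs with h
      · rw [if_pos h] at this; exact_mod_cast this
      · rw [if_neg h] at this; exact_mod_cast this
    have key : ∑ u, (L i u : ℝ) * ∑ i', a i' * rp p u i' = ∑ i', a i' *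
        ∑ u, (L i u : ℝ) * rp p u i' := by
      simp only [Finset.mul_sum]
      rw [Finset.sum_comm]
      exact Finset.sum_congr rfl fun i _ => Finset.sum_congr rfl fun u _ => by ring
    simp only [hab, h1] at key
    rw [← Finset.sum_mul, h0, zero_mul] at key
    simp only [mul_ite, mul_zero, Finset.sum_ite_eq, Finset.mem_univ, if_true] at key
    have := mul_eq_zero.1 key.symm
    rcases this with h | h
    · exact h
    · exact absurd h hD
  vertex := by
    intro u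
    obtain ⟨j, hj⟩ := C.vert u
    exact C.face_of ⟨j, Finset.singleton_subset_iff.2 hj⟩
  simplicial := by
    classical
    intro s hs
    rw [affineIndependent_iff]
    intro t w hw hwp v hv
    -- the facet avoiding `v` and containing the rest
    obtain ⟨j0, hj0⟩ := C.of_face hs
    have hsub : ∃ j, s.erase v.1 ⊆ Fc j := ⟨j0, (Finset.erase_subset _ _).trans hj0⟩
    obtain ⟨j, hj, hvj⟩ := C.inter (s.erase v.1) hsub v.1 (Finset.notMem_erase _ _)
    have h2 : ∀ i, ∑ e ∈ t, w e * rp p e.1 i = 0 := by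
      intro i
      have := congrFun hwp i
      simpa [Finset.sum_apply] using this
    have h3 : ∑ e ∈ t, w e * (∑ i, (N j i : ℝ) * rp p e.1 i - c j) = 0 := by
      have : ∑ e ∈ t, w e * (∑ i, (N j i : ℝ) * rp p e.1 i - c j) =
          ∑ i, (N j i : ℝ) * ∑ e ∈ t, w e * rp p e.1 i - c j * ∑ e ∈ t, w e := by
        simp only [mul_sub, Finset.sum_sub_distrib, Finset.mul_sum]
        rw [Finset.sum_comm]
        congr 1
        · exact Finset.sum_congr rfl fun i _ => Finset.sum_congr rfl fun u _ => by ring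
        · exact Finset.sum_congr rfl fun u _ => by ring
      rw [this, hw]
      simp only [h2]
      simp
    rw [Finset.sum_eq_single v] at h3
    · have h4 := C.offR j v.1 hvj
      rcases mul_eq_zero.1 h3 with h | h
      · exact h
      · linarith
    · intro e _ hne
      have : e.1 ∈ Fc j := hj (Finset.mem_erase.2 ⟨fun h => hne (Subtype.ext h), e.2⟩)
      rw [C.onR j e.1 this, sub_self, mul_zero]
    · intro h; exact absurd hv h

end Q207.Ear
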