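import Pool.Agent.Q207.Ear.Stellar

/-!
# The realization of a 3-simplex is a ball
-/

open Finset

namespace Q207.Ear

/-- The corner simplex. -/
def corner : Set (Fin 3 → ℝ) := {y | (∀ i, 0 ≤ y i) ∧ ∑ i, y i ≤ 1}

theorem corner_convex : Convex ℝ corner := by
  intro x hx y hy a b ha hb hab
  refine ⟨fun i => ?_, ?_⟩
  · have := hx.1 i
    have := hy.1 i
    simp only [Pi.add_apply, Pi.smul_apply, smul_eq_mul]
    positivity
  · have h1 := hx.2
    have h2 := hy.2
    simp only [Pi.add_apply, Pi.smul_apply, smul_eq_mul, Finset.sum_add_distrib, ← Finset.mul_sum]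
    nlinarith

theorem corner_closed : IsClosed corner := by
  have h1 : IsClosed {y : Fin 3 → ℝ | ∀ i, 0 ≤ y i} := by
    rw [Set.setOf_forall]
    exact isClosed_iInter fun i => isClosed_le continuous_const (continuous_apply i)
  have h2 : IsClosed {y : Fin 3 → ℝ | ∑ i, y i ≤ 1} :=
    isClosed_le (continuous_finsetSum _ fun i _ => continuous_apply i) continuous_const
  exact h1.inter h2

theorem corner_bounded : Bornology.IsBounded corner := by
  apply (Metric.isBounded_Icc (0 : Fin 3 → ℝ) 1).subset
  intro y hy
  refine ⟨fun i => hy.1 i, fun i => ?_⟩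
  have : y i ≤ ∑ j, y j := Finset.single_le_sum (fun j _ => hy.1 j) (Finset.mem_univ i)
  exact this.trans hy.2

theorem corner_interior : (interior corner).Nonempty := by
  refine ⟨fun _ => 1 / 4, ?_⟩
  rw [mem_interior]
  refine ⟨{y | (∀ i, 0 < y i) ∧ ∑ i, y i < 1}, fun y hy => ⟨fun i => (hy.1 i).le, hy.2.le⟩, ?_, ?_⟩
  · have h1 : IsOpen {y : Fin 3 → ℝ | ∀ i, 0 < y i} := by
      rw [Set.setOf_forall]
      exact isOpen_iInter_of_finite fun i => isOpen_lt continuous_const (continuous_apply i)
    have h2 : IsOpen {y : Fin 3 → ℝ | ∑ i, y i < 1} :=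
      isOpen_lt (continuous_finsetSum _ fun i _ => continuous_apply i) continuous_const
    exact h1.inter h2
  · refine ⟨fun i => by norm_num, ?_⟩
    simp only [Finset.sum_const, Finset.card_univ, Fintype.card_fin, nsmul_eq_mul]
    norm_num

theorem corner_ball :
    Nonempty (corner ≃ₜ Metric.closedBall (0 : EuclideanSpace ℝ (Fin 3)) 1) := by
  let e := EuclideanSpace.equiv (Fin 3) ℝ
  let s : Set (EuclideanSpace ℝ (Fin 3)) := e.symm '' corner
  have hc : Convex ℝ s := by
    have := corner_convex.linear_image e.symm.toLinearEquiv.toLinearMap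
    exact this
  have hk : IsCompact corner := Metric.isCompact_of_isClosed_isBounded corner_closed corner_bounded
  have hks : IsCompact s := hk.image e.symm.continuous
  have hne : (interior s).Nonempty := by
    have : interior s = e.symm '' interior corner :=
      (e.symm.toHomeomorph.image_interior corner).symm
    rw [this]
    exact corner_interior.image _
  obtain ⟨h, _, h2, _⟩ := exists_homeomorph_image_interior_closure_frontier_eq_unitBall hc hne
    hks.isBounded
  rw [hks.isClosed.closure_eq] at h2
  exact ⟨(e.symm.toHomeomorph.image corner).trans ((h.image s).trans (Homeomorph.setCongr h2))⟩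

variable {W : Type} [DecidableEq W]

theorem simplex_ball {F : Finset W} (hF : F.card = 4) :
    Nonempty ((gen (({F} : Finset (Finset W)) : Set (Finset W))).real ≃ₜ
      Metric.closedBall (0 : EuclideanSpace ℝ (Fin 3)) 1) := by
  obtain ⟨e⟩ := corner_ball
  let g := (F.equivFinOfCardEq hF).symm
  let f : Fin 4 → W := fun i => (g i : W)
  have hinj : Function.Injective f := fun i j h => g.injective (Subtype.ext h)
  have himg : Finset.univ.image f = F := by
    ext w
    simp only [Finset.mem_image, Finset.mem_univ, true_and]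
    constructor
    · rintro ⟨i, rfl⟩; exact (g i).2
    · intro hw; exact ⟨g.symm ⟨w, hw⟩, by simp [f]⟩
  have hsum : ∀ x : W → ℝ, ∑ v ∈ F, x v = x (f 0) + ∑ i : Fin 3, x (f i.succ) := by
    intro x
    rw [← himg, Finset.sum_image (fun i _ j _ h => hinj h), Fin.sum_univ_succ]
  let inv : (Fin 3 → ℝ) → (W → ℝ) := fun y w =>
    (if w = f 0 then 1 - ∑ i, y i else 0) + ∑ i : Fin 3, if w = f i.succ then y i else 0
  have inv0 : ∀ y, inv y (f 0) = 1 - ∑ i, y i := by
    intro y
    have : ∀ i : Fin 3, ¬ (f 0 = f i.succ) := fun i h => (Fin.succ_ne_zero i) (hinj h).symm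
    simp [inv, this]
  have invS : ∀ y (j : Fin 3), inv y (f j.succ) = y j := by
    intro y j
    have h1 : ¬ (f j.succ = f 0) := fun h => (Fin.succ_ne_zero j) (hinj h)
    have h2 : ∀ i : Fin 3, (f j.succ = f i.succ) ↔ j = i := fun i =>
      ⟨fun h => Fin.succ_injective _ (hinj h), fun h => by rw [h]⟩
    simp [inv, h1, h2]
  have hF' : ∀ w, w ∈ F ↔ w = f 0 ∨ ∃ i : Fin 3, w = f i.succ := by
    intro w
    rw [← himg]
    simp only [Finset.mem_image, Finset.mem_univ, true_and]
    constructor
    · rintro ⟨i, rfl⟩
      refine Fin.cases (Or.inl rfl) (fun i => Or.inr ⟨i, rfl⟩) i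
    · rintro (h | ⟨i, h⟩)
      · exact ⟨0, h.symm⟩
      · exact ⟨i.succ, h.symm⟩
  have invN : ∀ y w, w ∉ F → inv y w = 0 := by
    intro y w hw
    rw [hF'] at hw
    push Not at hw
    simp [inv, hw.1, hw.2]
  have hfw : ∀ x ∈ (gen (({F} : Finset (Finset W)) : Set (Finset W))).real,
      (fun i : Fin 3 => x (f i.succ)) ∈ corner := by
    intro x hx
    rw [mem_real_gen] at hx
    obtain ⟨h0, F', hF1, h1, h2⟩ := hx
    rw [Finset.mem_singleton] at hF1
    subst hF1
    refine ⟨fun i => h0 _, ?_⟩
    rw [hsum] at h2
    have := h0 (f 0)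
    linarith
  have hbw : ∀ y ∈ corner, inv y ∈ (gen (({F} : Finset (Finset W)) : Set (Finset W))).real := by
    intro y hy
    rw [mem_real_gen]
    refine ⟨fun w => ?_, F, Finset.mem_singleton_self _, invN y, ?_⟩
    · by_cases hw : w ∈ F
      · rcases (hF' w).1 hw with h | ⟨i, h⟩
        · rw [h, inv0]; have := hy.2; linarith
        · rw [h, invS]; exact hy.1 i
      · rw [invN y w hw]
    · rw [hsum, inv0]
      simp only [invS]
      ring
  have hinvc : Continuous inv := by
    refine continuous_pi fun w => ?_
    refine Continuous.add ?_ ?_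
    · by_cases h : w = f 0
      · simp only [h, if_true]
        exact continuous_const.sub (continuous_finsetSum _ fun i _ => continuous_apply i)
      · simp only [h, if_false]; exact continuous_const
    · refine continuous_finsetSum _ fun i _ => ?_
      by_cases h : w = f i.succ
      · simp only [h, if_true]; exact continuous_apply i
      · simp only [h, if_false]; exact continuous_const
  have hfc : Continuous fun (x : W → ℝ) (i : Fin 3) => x (f i.succ) :=
    continuous_pi fun i => continuous_apply _
  let E : (gen (({F} : Finset (Finset W)) : Set (Finset W))).real ≃ₜ corner :=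
    { toFun := fun x => ⟨fun i => x.1 (f i.succ), hfw x.1 x.2⟩
      invFun := fun y => ⟨inv y.1, hbw y.1 y.2⟩
      left_inv := by
        intro x
        apply Subtype.ext
        funext w
        show inv (fun i => x.1 (f i.succ)) w = x.1 w
        have hx := x.2
        rw [mem_real_gen] at hx
        obtain ⟨h0, F', hF1, h1, h2⟩ := hx
        rw [Finset.mem_singleton] at hF1
        subst hF1
        by_cases hw : w ∈ F'
        · rcases (hF' w).1 hw with h | ⟨i, h⟩
          · rw [h, inv0]
            rw [hsum] at h2
            linarith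
          · rw [h, invS]
        · rw [invN _ w hw, h1 w hw]
      right_inv := by
        intro y
        apply Subtype.ext
        funext i
        exact invS y.1 i
      continuous_toFun := (hfc.comp continuous_subtype_val).subtype_mk _
      continuous_invFun := (hinvc.comp continuous_subtype_val).subtype_mk _ }
  exact ⟨E.trans e⟩

theorem ball_of_path {G : Finset (Finset W)}
    (l : List (Bool × Finset W × W × Finset (Finset W))) (h : PathOK G l) :
    (gen (G : Set (Finset W))).IsBall 3 := by
  obtain ⟨F, hF, ⟨e⟩⟩ := homeo_of_path l G h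
  obtain ⟨e'⟩ := simplex_ball hF
  exact ⟨e.trans e'⟩

end Q207.Ear
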