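import Pool.Agent.Q207.Ear.Defs

/-!
# Stellar subdivisions do not change the realization (up to homeomorphism)
-/

open Finset

namespace Q207.Ear

variable {W : Type} [DecidableEq W]

theorem mem_real_gen {G : Finset (Finset W)} {x : W → ℝ} :
    x ∈ (gen (G : Set (Finset W))).real ↔
      (∀ v, 0 ≤ x v) ∧ ∃ F ∈ G, (∀ v, v ∉ F → x v = 0) ∧ ∑ v ∈ F, x v = 1 := by
  constructor
  · rintro ⟨h0, s, ⟨F, hF, hs⟩, h1, h2⟩
    refine ⟨h0, F, hF, fun v hv => h1 v fun h => hv (hs h), ?_⟩
    rw [← h2]
    symm
    exact Finset.sum_subset hs fun v _ hv => h1 v hv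
  · rintro ⟨h0, F, hF, h1, h2⟩
    exact ⟨h0, F, ⟨F, hF, Finset.Subset.refl _⟩, h1, h2⟩

/-- Stellar subdivision at `A` with the new vertex `v`. -/
def sd (G : Finset (Finset W)) (A : Finset W) (v : W) : Finset (Finset W) :=
  (G.filter fun F => ¬ A ⊆ F) ∪
    (G.filter fun F => A ⊆ F).biUnion fun F => A.image fun a => insert v (F.erase a)

theorem mem_sd {G : Finset (Finset W)} {A : Finset W} {v : W} {F : Finset W} :
    F ∈ sd G A v ↔ (F ∈ G ∧ ¬ A ⊆ F) ∨
      ∃ F' ∈ G, A ⊆ F' ∧ ∃ a ∈ A, insert v (F'.erase a) = F := by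
  simp only [sd, Finset.mem_union, Finset.mem_filter, Finset.mem_biUnion, Finset.mem_image]
  constructor
  · rintro (h | ⟨F', ⟨h1, h2⟩, a, ha, h3⟩)
    · exact Or.inl h
    · exact Or.inr ⟨F', h1, h2, a, ha, h3⟩
  · rintro (h | ⟨F', h1, h2, a, ha, h3⟩)
    · exact Or.inl h
    · exact Or.inr ⟨F', ⟨h1, h2⟩, a, ha, h3⟩

/-- The map from `|K|` to the realization of the subdivision. -/
noncomputable def fwd (A : Finset W) (hA : A.Nonempty) (v : W) (x : W → ℝ) : W → ℝ := fun w =>
  if w = v then (A.card : ℝ) * A.inf' hA x else if w ∈ A then x w - A.inf' hA x else x w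

/-- The map back. -/
noncomputable def bwd (A : Finset W) (v : W) (y : W → ℝ) : W → ℝ := fun w =>
  if w = v then 0 else if w ∈ A then y w + y v / (A.card : ℝ) else y w

theorem continuous_fwd (A : Finset W) (hA : A.Nonempty) (v : W) :
    Continuous (fwd A hA v) := by
  have hm : Continuous fun x : W → ℝ => A.inf' hA x :=
    Continuous.finset_inf'_apply hA fun i _ => continuous_apply i
  refine continuous_pi fun w => ?_
  unfold fwd
  by_cases h1 : w = v
  · simp only [h1, if_true]
    exact continuous_const.mul hm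
  · by_cases h2 : w ∈ A
    · simp only [h1, h2, if_true, if_false]
      exact (continuous_apply w).sub hm
    · simp only [h1, h2, if_false]
      exact continuous_apply w

theorem continuous_bwd (A : Finset W) (v : W) :
    Continuous (bwd A v) := by
  refine continuous_pi fun w => ?_
  unfold bwd
  by_cases h1 : w = v
  · simp only [h1, if_true]
    exact continuous_const
  · by_cases h2 : w ∈ A
    · simp only [h1, h2, if_true, if_false]
      exact (continuous_apply w).add ((continuous_apply v).div_const _)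
    · simp only [h1, h2, if_false]
      exact continuous_apply w

section
variable {G : Finset (Finset W)} {A : Finset W} {v : W}

theorem inf'_eq_of {x : W → ℝ} (hA : A.Nonempty) {a : W} (ha : a ∈ A) {c : ℝ} (h : x a = c)
    (h' : ∀ b ∈ A, c ≤ x b) : A.inf' hA x = c := by
  apply le_antisymm
  · rw [← h]; exact Finset.inf'_le _ ha
  · exact Finset.le_inf' _ _ h'

theorem fwd_mem (hA : A.Nonempty) (hvA : v ∉ A) (hv : ∀ F ∈ G, v ∉ F) {x : W → ℝ}
    (hx : x ∈ (gen (G : Set (Finset W))).real) :
    fwd A hA v x ∈ (gen (sd G A v : Set (Finset W))).real := by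
  rw [mem_real_gen] at hx ⊢
  obtain ⟨h0, F, hF, h1, h2⟩ := hx
  have hm0 : 0 ≤ A.inf' hA x := Finset.le_inf' _ _ fun b _ => h0 b
  constructor
  · intro w
    unfold fwd
    by_cases e1 : w = v
    · rw [if_pos e1]; positivity
    · rw [if_neg e1]
      by_cases e2 : w ∈ A
      · rw [if_pos e2]
        have := Finset.inf'_le x e2
        linarith
      · rw [if_neg e2]; exact h0 w
  · by_cases hAF : A ⊆ F
    · obtain ⟨a, ha, hma⟩ := Finset.exists_mem_eq_inf' hA x
      refine ⟨insert v (F.erase a), mem_sd.2 (Or.inr ⟨F, hF, hAF, a, ha, rfl⟩), ?_, ?_⟩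
      · intro w hw
        have hwv : w ≠ v := fun e => hw (by rw [e]; exact Finset.mem_insert_self _ _)
        have hw2 : ¬ (w ≠ a ∧ w ∈ F) := fun e => hw (Finset.mem_insert_of_mem
          (Finset.mem_erase.2 e))
        unfold fwd
        rw [if_neg hwv]
        by_cases e2 : w ∈ A
        · rw [if_pos e2]
          have : w = a := by
            by_contra hne
            exact hw2 ⟨hne, hAF e2⟩
          rw [this, hma, sub_self]
        · rw [if_neg e2]
          apply h1
          intro hwF
          exact hw2 ⟨fun e => e2 (e ▸ ha), hwF⟩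
      · have hfa : fwd A hA v x a = 0 := by
          unfold fwd
          rw [if_neg (show ¬ a = v from fun e => hvA (e ▸ ha)), if_pos ha, hma, sub_self]
        have hvF : v ∉ F := hv F hF
        have hvE : v ∉ F.erase a := fun h => hvF (Finset.mem_of_mem_erase h)
        rw [Finset.sum_insert hvE]
        have e1 : ∑ w ∈ F.erase a, fwd A hA v x w = ∑ w ∈ F, fwd A hA v x w := by
          rw [← Finset.add_sum_erase F _ (hAF ha), hfa, zero_add]
        have e2 : ∑ w ∈ F, fwd A hA v x w = ∑ w ∈ F, (x w - if w ∈ A then A.inf' hA x else 0) := by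
          apply Finset.sum_congr rfl
          intro w hw
          unfold fwd
          rw [if_neg (show ¬ w = v from fun e => hvF (e ▸ hw))]
          split_ifs <;> ring
        have e3 : fwd A hA v x v = (A.card : ℝ) * A.inf' hA x := by
          unfold fwd; rw [if_pos rfl]
        rw [e1, e2, Finset.sum_sub_distrib, h2, ← Finset.sum_filter, Finset.sum_const, e3]
        have e4 : F.filter (fun w => w ∈ A) = A := by
          ext w; simp only [Finset.mem_filter]
          exact ⟨fun h => h.2, fun h => ⟨hAF h, h⟩⟩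
        rw [e4, nsmul_eq_mul]
        ring
    · obtain ⟨a, ha, haF⟩ := Finset.not_subset.1 hAF
      have hm : A.inf' hA x = 0 := inf'_eq_of hA ha (h1 a haF) fun b _ => h0 b
      have hxv : x v = 0 := h1 v (hv F hF)
      have hfx : fwd A hA v x = x := by
        funext w
        unfold fwd
        rw [hm]
        split_ifs with e1 e2
        · rw [e1, hxv, mul_zero]
        · ring
        · rfl
      refine ⟨F, mem_sd.2 (Or.inl ⟨hF, hAF⟩), ?_, ?_⟩
      · rw [hfx]; exact h1
      · rw [hfx]; exact h2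

theorem exists_zero (hvA : v ∉ A) (hv : ∀ F ∈ G, v ∉ F) {y : W → ℝ}
    (hy : y ∈ (gen (sd G A v : Set (Finset W))).real) : ∃ a ∈ A, y a = 0 := by
  rw [mem_real_gen] at hy
  obtain ⟨h0, F, hF, h1, h2⟩ := hy
  rcases mem_sd.1 hF with ⟨_, hAF⟩ | ⟨F', hF', hAF', a, ha, rfl⟩
  · obtain ⟨a, ha, haF⟩ := Finset.not_subset.1 hAF
    exact ⟨a, ha, h1 a haF⟩
  · refine ⟨a, ha, h1 a ?_⟩
    rw [Finset.mem_insert, Finset.mem_erase]
    rintro (e | ⟨e, _⟩)
    · exact hvA (e ▸ ha)
    · exact e rfl

theorem bwd_mem (hA : A.Nonempty) (hvA : v ∉ A) (hv : ∀ F ∈ G, v ∉ F) {y : W → ℝ}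
    (hy : y ∈ (gen (sd G A v : Set (Finset W))).real) :
    bwd A v y ∈ (gen (G : Set (Finset W))).real := by
  rw [mem_real_gen] at hy ⊢
  obtain ⟨h0, F, hF, h1, h2⟩ := hy
  have hc : (0 : ℝ) < A.card := by exact_mod_cast hA.card_pos
  constructor
  · intro w
    unfold bwd
    have := h0 w
    have := h0 v
    split_ifs
    · exact le_refl _
    · positivity
    · assumption
  · rcases mem_sd.1 hF with ⟨hFG, hAF⟩ | ⟨F', hF', hAF', a, ha, rfl⟩
    · have hyv : y v = 0 := h1 v (hv F hFG)
      have hb : bwd A v y = y := by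
        funext w
        unfold bwd
        rw [hyv]
        split_ifs with e1 e2
        · rw [e1, hyv]
        · ring
        · rfl
      refine ⟨F, hFG, ?_, ?_⟩
      · rw [hb]; exact h1
      · rw [hb]; exact h2
    · have hvF : v ∉ F' := hv F' hF'
      refine ⟨F', hF', ?_, ?_⟩
      · intro w hw
        unfold bwd
        by_cases e1 : w = v
        · rw [if_pos e1]
        · rw [if_neg e1, if_neg (fun h => hw (hAF' h))]
          apply h1
          rw [Finset.mem_insert, Finset.mem_erase]
          rintro (e | ⟨_, e⟩)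
          · exact e1 e
          · exact hw e
      · have hya : y a = 0 := by
          apply h1
          rw [Finset.mem_insert, Finset.mem_erase]
          rintro (e | ⟨e, _⟩)
          · exact hvA (e ▸ ha)
          · exact e rfl
        have hvE : v ∉ F'.erase a := fun h => hvF (Finset.mem_of_mem_erase h)
        rw [Finset.sum_insert hvE] at h2
        have e1 : ∑ w ∈ F'.erase a, y w = ∑ w ∈ F', y w := by
          rw [← Finset.add_sum_erase F' _ (hAF' ha), hya, zero_add]
        have e2 : ∑ w ∈ F', bwd A v y w =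
            ∑ w ∈ F', (y w + if w ∈ A then y v / (A.card : ℝ) else 0) := by
          apply Finset.sum_congr rfl
          intro w hw
          unfold bwd
          rw [if_neg (show ¬ w = v from fun e => hvF (e ▸ hw))]
          split_ifs <;> ring
        rw [e2, Finset.sum_add_distrib, ← Finset.sum_filter, Finset.sum_const]
        have e4 : F'.filter (fun w => w ∈ A) = A := by
          ext w; simp only [Finset.mem_filter]
          exact ⟨fun h => h.2, fun h => ⟨hAF' h, h⟩⟩
        rw [e4, nsmul_eq_mul, mul_div_cancel₀ _ hc.ne', ← e1]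
        linarith

theorem bwd_fwd (hA : A.Nonempty) (hvA : v ∉ A) (hv : ∀ F ∈ G, v ∉ F) {x : W → ℝ}
    (hx : x ∈ (gen (G : Set (Finset W))).real) : bwd A v (fwd A hA v x) = x := by
  rw [mem_real_gen] at hx
  obtain ⟨h0, F, hF, h1, h2⟩ := hx
  have hc : (0 : ℝ) < A.card := by exact_mod_cast hA.card_pos
  funext w
  unfold bwd fwd
  by_cases e1 : w = v
  · rw [if_pos e1, e1, h1 v (hv F hF)]
  · rw [if_neg e1, if_neg e1, if_pos rfl]
    by_cases e2 : w ∈ A
    · rw [if_pos e2, if_pos e2]
      field_simp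
      ring
    · rw [if_neg e2, if_neg e2]

theorem fwd_bwd (hA : A.Nonempty) (hvA : v ∉ A) (hv : ∀ F ∈ G, v ∉ F) {y : W → ℝ}
    (hy : y ∈ (gen (sd G A v : Set (Finset W))).real) : fwd A hA v (bwd A v y) = y := by
  have hc : (0 : ℝ) < A.card := by exact_mod_cast hA.card_pos
  obtain ⟨a, ha, hya⟩ := exists_zero hvA hv hy
  have h0 : ∀ w, 0 ≤ y w := hy.1
  have hb : ∀ w ∈ A, bwd A v y w = y w + y v / (A.card : ℝ) := by
    intro w hw
    unfold bwd
    rw [if_neg (show ¬ w = v from fun e => hvA (e ▸ hw)), if_pos hw]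
  have hm : A.inf' hA (bwd A v y) = y v / (A.card : ℝ) := by
    apply inf'_eq_of hA ha
    · rw [hb a ha, hya, zero_add]
    · intro b hb'
      rw [hb b hb']
      have := h0 b
      linarith
  funext w
  unfold fwd
  rw [hm]
  by_cases e1 : w = v
  · rw [if_pos e1, e1]; field_simp
  · rw [if_neg e1]
    by_cases e2 : w ∈ A
    · rw [if_pos e2, hb w e2]; ring
    · rw [if_neg e2]; unfold bwd; rw [if_neg e1, if_neg e2]

/-- Stellar subdivision is a homeomorphism on realizations. -/
noncomputable def sdHomeo (hA : A.Nonempty) (hvA : v ∉ A) (hv : ∀ F ∈ G, v ∉ F) :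
    (gen (G : Set (Finset W))).real ≃ₜ (gen (sd G A v : Set (Finset W))).real where
  toFun x := ⟨fwd A hA v x.1, fwd_mem hA hvA hv x.2⟩
  invFun y := ⟨bwd A v y.1, bwd_mem hA hvA hv y.2⟩
  left_inv x := Subtype.ext (bwd_fwd hA hvA hv x.2)
  right_inv y := Subtype.ext (fwd_bwd hA hvA hv y.2)
  continuous_toFun := ((continuous_fwd A hA v).comp continuous_subtype_val).subtype_mk _
  continuous_invFun := ((continuous_bwd A v).comp continuous_subtype_val).subtype_mk _

end

/-- A list of stellar moves (`true` = subdivide, `false` = undo a subdivision), each with the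
resulting complex, ending with a single simplex. -/
def PathOK : Finset (Finset W) → List (Bool × Finset W × W × Finset (Finset W)) → Prop
  | G, [] => ∃ F ∈ G, G = {F} ∧ F.card = 4
  | G, (b, A, v, G') :: l =>
      (A.Nonempty ∧ v ∉ A ∧
        ((b = true ∧ (∀ F ∈ G, v ∉ F) ∧ sd G A v = G') ∨
         (b = false ∧ (∀ F ∈ G', v ∉ F) ∧ sd G' A v = G))) ∧ PathOK G' l

instance decPathOK : ∀ (G : Finset (Finset W)) (l : List (Bool × Finset W × W × Finset (Finset W))),
    Decidable (PathOK G l)
  | G, [] => by unfold PathOK; infer_instance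
  | G, (b, A, v, G') :: l => by
      unfold PathOK
      haveI := decPathOK G' l
      infer_instance

theorem homeo_of_path : ∀ (l : List (Bool × Finset W × W × Finset (Finset W)))
    (G : Finset (Finset W)), PathOK G l →
    ∃ F : Finset W, F.card = 4 ∧ Nonempty ((gen (G : Set (Finset W))).real ≃ₜ
      (gen (({F} : Finset (Finset W)) : Set (Finset W))).real)
  | [], G, h => by
      obtain ⟨F, _, rfl, hF⟩ := h
      exact ⟨F, hF, ⟨Homeomorph.refl _⟩⟩
  | (b, A, v, G') :: l, G, h => by
      obtain ⟨⟨hA, hvA, hb⟩, hl⟩ := h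
      obtain ⟨F, hF, ⟨e⟩⟩ := homeo_of_path l G' hl
      refine ⟨F, hF, ?_⟩
      rcases hb with ⟨_, hv, rfl⟩ | ⟨_, hv, rfl⟩
      · exact ⟨(sdHomeo hA hvA hv).trans e⟩
      · exact ⟨(sdHomeo hA hvA hv).symm.trans e⟩

end Q207.Ear
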